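import Mathlib

/-!
Graphs without induced cycles of length at least five: the two-path lemma.
-/

set_option autoImplicit false

namespace Pool.Agent.LongHole

open SimpleGraph

variable {V : Type*}

/-- Adjacency in `cycleGraph n` in terms of values. -/
lemma cycleGraph_adj_val {n : ℕ} (hn : 3 ≤ n) (u v : Fin n) :
    (cycleGraph n).Adj u v ↔ (u.val + 1 = v.val ∨ v.val + 1 = u.val ∨
      (u.val = 0 ∧ v.val + 1 = n) ∨ (v.val = 0 ∧ u.val + 1 = n)) := by
  rw [cycleGraph_adj']
  rcases lt_trichotomy u v with h | h | h
  · have h1 : ((u - v : Fin n) : ℕ) = n + u - v := Fin.coe_sub_iff_lt.mpr h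
    have h2 : ((v - u : Fin n) : ℕ) = v - u := Fin.coe_sub_iff_le.mpr h.le
    have h3 : (u : ℕ) < v := h
    have h4 := v.isLt
    rw [h1, h2]
    omega
  · subst h
    have h2 : ((u - u : Fin n) : ℕ) = u - u := Fin.coe_sub_iff_le.mpr le_rfl
    have h4 := u.isLt
    rw [h2]
    omega
  · have h1 : ((v - u : Fin n) : ℕ) = n + v - u := Fin.coe_sub_iff_lt.mpr h
    have h2 : ((u - v : Fin n) : ℕ) = u - v := Fin.coe_sub_iff_le.mpr h.le
    have h3 : (v : ℕ) < u := h
    have h4 := u.isLt
    rw [h1, h2]
    omega

/-- The restriction of `G` to a set `W` of vertices, on the same vertex type. -/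
def resG (G : SimpleGraph V) (W : Set V) : SimpleGraph V where
  Adj x y := G.Adj x y ∧ x ∈ W ∧ y ∈ W
  symm := ⟨fun _ _ h => ⟨h.1.symm, h.2.2, h.2.1⟩⟩
  loopless := ⟨fun _ h => G.loopless.irrefl _ h.1⟩

/-- A shortest path between two nonadjacent vertices through `M` is an induced path. -/
lemma exists_induced_path (G : SimpleGraph V) (s t : V) (M : Set V) (hst : s ≠ t)
    (hnst : ¬ G.Adj s t) (hreach : (resG G (M ∪ {s, t})).Reachable s t) :
    ∃ (l : ℕ) (p : ℕ → V), 2 ≤ l ∧ p 0 = s ∧ p l = t ∧
      (∀ i, 0 < i → i < l → p i ∈ M) ∧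
      (∀ i j, i ≤ l → j ≤ l → (G.Adj (p i) (p j) ↔ (i + 1 = j ∨ j + 1 = i))) ∧
      (∀ i j, i ≤ l → j ≤ l → p i = p j → i = j) := by
  classical
  set H := resG G (M ∪ {s, t}) with hH
  obtain ⟨p, hp⟩ := hreach.exists_walk_length_eq_dist
  have hnH : ¬ H.Adj s t := fun h => hnst h.1
  have hl : 2 ≤ H.dist s t := hreach.one_lt_dist_of_ne_of_not_adj hst hnH
  set l := H.dist s t with hldef
  have hHG : ∀ x y, H.Adj x y → G.Adj x y := fun x y h => h.1
  -- distances along `p`
  have hdist : ∀ i, i ≤ l → H.dist s (p.getVert i) = i := by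
    intro i hi
    have h1 : H.dist s (p.getVert i) ≤ i := by
      have := H.dist_le (p.take i)
      refine this.trans ?_
      rw [Walk.take_length]
      exact min_le_left _ _
    have h2 : H.dist (p.getVert i) t ≤ l - i := by
      have := H.dist_le (p.drop i)
      refine this.trans ?_
      rw [Walk.drop_length, hp]
    have hr1 : H.Reachable s (p.getVert i) := ⟨p.take i⟩
    have h3 := hr1.dist_triangle_left t
    omega
  have hreachi : ∀ i, H.Reachable s (p.getVert i) := fun i => ⟨p.take i⟩
  have hadj_succ : ∀ i, i < l → H.Adj (p.getVert i) (p.getVert (i+1)) := by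
    intro i hi
    exact p.adj_getVert_succ (by omega)
  have hmemW : ∀ i, i ≤ l → p.getVert i ∈ (M ∪ {s, t} : Set V) := by
    intro i hi
    rcases Nat.lt_or_ge i l with h | h
    · exact (hadj_succ i h).2.1
    · have hil : i = l := le_antisymm hi h
      have := hadj_succ (i-1) (by omega)
      have h' : i - 1 + 1 = i := by omega
      rw [h'] at this
      exact this.2.2
  have hmemM : ∀ i, 0 < i → i < l → p.getVert i ∈ M := by
    intro i h0 hi
    have h1 := hmemW i hi.le
    have h2 := hdist i hi.le
    rcases h1 with h1 | h1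
    · exact h1
    · rcases h1 with h1 | h1
      · rw [h1] at h2
        simp at h2
        omega
      · rw [Set.mem_singleton_iff] at h1
        rw [h1] at h2
        omega
  have hadj_iff : ∀ i j, i ≤ l → j ≤ l →
      (G.Adj (p.getVert i) (p.getVert j) ↔ (i + 1 = j ∨ j + 1 = i)) := by
    intro i j hi hj
    constructor
    · intro h
      have hHadj : H.Adj (p.getVert i) (p.getVert j) := ⟨h, hmemW i hi, hmemW j hj⟩
      have h1 := hdist i hi
      have h2 := hdist j hj
      have hne : i ≠ j := by
        rintro rfl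
        exact G.loopless.irrefl _ h
      have h3 := (hreachi i).dist_triangle_left (p.getVert j)
      have h4 := (hreachi j).dist_triangle_left (p.getVert i)
      have h5 : H.dist (p.getVert i) (p.getVert j) = 1 := dist_eq_one_iff_adj.mpr hHadj
      have h6 : H.dist (p.getVert j) (p.getVert i) = 1 := dist_eq_one_iff_adj.mpr hHadj.symm
      omega
    · rintro (h | h)
      · subst h
        exact hHG _ _ (hadj_succ i (by omega))
      · subst h
        exact (hHG _ _ (hadj_succ j (by omega))).symm
  have hinj : ∀ i j, i ≤ l → j ≤ l → p.getVert i = p.getVert j → i = j := by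
    intro i j hi hj h
    have h1 := hdist i hi
    have h2 := hdist j hj
    rw [h] at h1
    omega
  refine ⟨l, p.getVert, hl, by simp, ?_, hmemM, hadj_iff, hinj⟩
  rw [← hp]; exact p.getVert_length

/-- **Two-path lemma.** Let `s, t` be distinct nonadjacent vertices that are joined through `W1`
and through `W2`, where `W1, W2` are disjoint with no edges between them and do not contain
`s, t`, and no vertex of `W2` is adjacent to both `s` and `t`. Then `G` has an induced cycle of
length at least five. -/
theorem two_path (G : SimpleGraph V) (hG : ∀ n : ℕ, 5 ≤ n → IsEmpty (cycleGraph n ↪g G))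
    (s t : V) (W1 W2 : Set V) (hst : s ≠ t) (hnst : ¬ G.Adj s t)
    (hs2 : s ∉ W2) (ht2 : t ∉ W2)
    (hdis : ∀ u ∈ W1, ∀ v ∈ W2, u ≠ v) (hanti : ∀ u ∈ W1, ∀ v ∈ W2, ¬ G.Adj u v)
    (hcom : ∀ v ∈ W2, ¬ (G.Adj s v ∧ G.Adj t v))
    (h1 : (resG G (W1 ∪ {s, t})).Reachable s t)
    (h2 : (resG G (W2 ∪ {s, t})).Reachable s t) : False := by
  obtain ⟨l, p, hl, p0, pl, pM, padj, pinj⟩ := exists_induced_path G s t W1 hst hnst h1
  obtain ⟨m, q, hm, q0, qm, qM, qadj, qinj⟩ := exists_induced_path G s t W2 hst hnst h2
  have hm3 : 3 ≤ m := by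
    by_contra hcon
    have hm2 : m = 2 := by omega
    subst hm2
    have hq := qM 1 (by omega) (by omega)
    have e1 := (qadj 0 1 (by omega) (by omega)).mpr (by omega)
    have e2 := (qadj 1 2 (by omega) (by omega)).mpr (by omega)
    rw [q0] at e1
    rw [qm] at e2
    exact hcom _ hq ⟨e1, e2.symm⟩
  -- no edges and no coincidences between the interiors
  have hpq : ∀ i j, i ≤ l → 0 < j → j < m → p i ≠ q j := by
    intro i j hi hj0 hjm h
    have hq := qM j hj0 hjm
    rcases Nat.eq_zero_or_pos i with h0 | h0
    · subst h0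
      rw [p0] at h
      rw [← h] at hq
      exact hs2 hq
    · rcases Nat.lt_or_ge i l with h3 | h3
      · exact hdis _ (pM i h0 h3) _ hq h
      · have hil : i = l := le_antisymm hi h3
        rw [hil, pl] at h
        rw [← h] at hq
        exact ht2 hq
  have hpqadj : ∀ i j, i ≤ l → 0 < j → j < m →
      (G.Adj (p i) (q j) ↔ ((i = 0 ∧ j = 1) ∨ (i = l ∧ j + 1 = m))) := by
    intro i j hi hj0 hjm
    rcases Nat.eq_zero_or_pos i with h0 | h0
    · subst h0
      have := qadj 0 j (by omega) (by omega)
      rw [q0] at this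
      rw [p0, this]
      omega
    · rcases Nat.lt_or_ge i l with h3 | h3
      · constructor
        · intro h
          exact absurd h (hanti _ (pM i h0 h3) _ (qM j hj0 hjm))
        · intro h
          omega
      · have hil : i = l := le_antisymm hi h3
        subst hil
        have := qadj m j (by omega) (by omega)
        rw [qm] at this
        rw [pl, this]
        omega
  refine (hG (l + m) (by omega)).false ?_
  let φ : Fin (l + m) → V := fun i => if i.val ≤ l then p i.val else q (l + m - i.val)
  have hφinj : Function.Injective φ := by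
    intro i j hij
    have hi := i.isLt
    have hj := j.isLt
    by_cases h1 : i.val ≤ l <;> by_cases h2 : j.val ≤ l
    · simp only [φ, h1, h2, if_true] at hij
      exact Fin.ext (pinj _ _ h1 h2 hij)
    · simp only [φ, h1, h2, if_true, if_false] at hij
      exact absurd hij (hpq _ _ h1 (by omega) (by omega))
    · simp only [φ, h1, h2, if_true, if_false] at hij
      exact absurd hij.symm (hpq _ _ h2 (by omega) (by omega))
    · simp only [φ, h1, h2, if_false] at hij
      have := qinj _ _ (by omega) (by omega) hij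
      apply Fin.ext
      omega
  refine ⟨⟨φ, hφinj⟩, ?_⟩
  intro i j
  simp only [Function.Embedding.coeFn_mk]
  rw [cycleGraph_adj_val (by omega)]
  have hi := i.isLt
  have hj := j.isLt
  by_cases h1 : i.val ≤ l <;> by_cases h2 : j.val ≤ l
  · simp only [φ, h1, h2, if_true]
    rw [padj _ _ h1 h2]
    omega
  · simp only [φ, h1, h2, if_true, if_false]
    rw [hpqadj _ _ h1 (by omega) (by omega)]
    omega
  · simp only [φ, h1, h2, if_true, if_false]
    rw [G.adj_comm, hpqadj _ _ h2 (by omega) (by omega)]
    omega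
  · simp only [φ, h1, h2, if_false]
    rw [qadj _ _ (by omega) (by omega)]
    omega

end Pool.Agent.LongHole
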