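import Mathlib
import Pool.Agent.LongHole.Basic

/-!
Graphs without induced cycles of length at least five: a maximum clique which contains no
neighbour of the vertex `r` forces a star cutset centred at a neighbour of `r`.
-/

set_option autoImplicit false

namespace Pool.Agent.LongHole

open SimpleGraph

variable {V : Type*}

/-- Induction along reachability. -/
lemma reach_induct {H : SimpleGraph V} {a b : V} (h : H.Reachable a b) (P : V → Prop) (ha : P a)
    (step : ∀ u v, P u → H.Adj u v → P v) : P b := by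
  rw [SimpleGraph.reachable_iff_reflTransGen] at h
  induction h with
  | refl => exact ha
  | tail _ h2 ih => exact step _ _ ih h2

lemma resG_mono {G : SimpleGraph V} {A B : Set V} (h : A ⊆ B) {a b : V}
    (hr : (resG G A).Reachable a b) : (resG G B).Reachable a b := by
  have hle : resG G A ≤ resG G B := by
    intro u v h1
    exact ⟨h1.1, h h1.2.1, h h1.2.2⟩
  exact hr.mono hle

/-- Vertices away from `r` and not adjacent to `q`. -/
def away (G : SimpleGraph V) (r q : V) : Set V := {v | v ≠ r ∧ ¬ G.Adj r v ∧ ¬ G.Adj q v}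

/-- The component of `away G r q` containing the vertices of `K` not adjacent to `q`. -/
def comp (G : SimpleGraph V) (r : V) (K : Finset V) (q : V) : Set V :=
  {v | ∃ k ∈ K, ¬ G.Adj q k ∧ (resG G (away G r q)).Reachable k v}

section

variable {G : SimpleGraph V} {r : V} {K : Finset V}

lemma mem_away_of_mem (hK : ∀ k ∈ K, k ≠ r ∧ ¬ G.Adj r k) {q k : V} (hk : k ∈ K)
    (hq : ¬ G.Adj q k) : k ∈ away G r q := ⟨(hK k hk).1, (hK k hk).2, hq⟩

lemma mem_comp_of_mem {q k : V} (hk : k ∈ K) (hq : ¬ G.Adj q k) : k ∈ comp G r K q :=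
  ⟨k, hk, hq, Reachable.refl _⟩

lemma comp_sub_away (hK : ∀ k ∈ K, k ≠ r ∧ ¬ G.Adj r k) {q v : V} (hv : v ∈ comp G r K q) :
    v ∈ away G r q := by
  obtain ⟨k, hk, hq, hr⟩ := hv
  exact reach_induct hr (fun v => v ∈ away G r q) (mem_away_of_mem hK hk hq)
    (fun u v _ h => h.2.2)

lemma comp_closed (hK : ∀ k ∈ K, k ≠ r ∧ ¬ G.Adj r k) {q u v : V} (hu : u ∈ comp G r K q)
    (hv : v ∈ away G r q) (h : G.Adj u v) : v ∈ comp G r K q := by
  have hu' := comp_sub_away hK hu
  obtain ⟨k, hk, hq, hr⟩ := hu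
  refine ⟨k, hk, hq, hr.trans (Adj.reachable ?_)⟩
  exact ⟨h, hu', hv⟩

/-- Inside `comp` any two vertices are joined. -/
lemma comp_conn (hK : ∀ k ∈ K, k ≠ r ∧ ¬ G.Adj r k) (hcl : G.IsClique (K : Set V)) {q u v : V}
    (hu : u ∈ comp G r K q) (hv : v ∈ comp G r K q) :
    (resG G (comp G r K q)).Reachable u v := by
  have key : ∀ k ∈ K, ¬ G.Adj q k → ∀ v, (resG G (away G r q)).Reachable k v →
      (resG G (comp G r K q)).Reachable k v := by
    intro k hk hq v hr
    have h := reach_induct hr (fun v => v ∈ comp G r K q ∧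
      (resG G (comp G r K q)).Reachable k v) ⟨mem_comp_of_mem hk hq, Reachable.refl _⟩ ?_
    · exact h.2
    · intro a b ha hab
      have hb : b ∈ comp G r K q := comp_closed hK ha.1 hab.2.2 hab.1
      exact ⟨hb, ha.2.trans (Adj.reachable ⟨hab.1, ha.1, hb⟩)⟩
  obtain ⟨k1, hk1, hq1, hr1⟩ := hu
  obtain ⟨k2, hk2, hq2, hr2⟩ := hv
  have h12 : (resG G (comp G r K q)).Reachable k1 k2 := by
    by_cases h : k1 = k2
    · subst h
      exact Reachable.refl _
    · exact Adj.reachable ⟨hcl hk1 hk2 h, mem_comp_of_mem hk1 hq1, mem_comp_of_mem hk2 hq2⟩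
  exact ((key k1 hk1 hq1 u hr1).symm.trans h12).trans (key k2 hk2 hq2 v hr2)

/-- A neighbour `s` of `r` which touches the component and is not adjacent to `q` is complete to
the neighbours of the component outside the neighbourhood of `r`. -/
lemma complete_of_touch (hG : ∀ n : ℕ, 5 ≤ n → IsEmpty (cycleGraph n ↪g G))
    (hK : ∀ k ∈ K, k ≠ r ∧ ¬ G.Adj r k) (hcl : G.IsClique (K : Set V)) {q s y w w' : V}
    (hrq : G.Adj r q) (hrs : G.Adj r s) (hqs : ¬ G.Adj q s) (hw : w ∈ comp G r K q)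
    (hsw : G.Adj s w) (hyr : y ≠ r) (hry : ¬ G.Adj r y) (hqy : G.Adj q y)
    (hw' : w' ∈ comp G r K q) (hyw' : G.Adj y w') : G.Adj s y := by
  by_contra hsy
  have hsyne : s ≠ y := fun h => hry (h ▸ hrs)
  have haw := comp_sub_away hK hw
  have hsq : s ≠ q := by
    rintro rfl
    exact haw.2.2 hsw
  refine two_path G hG s y (comp G r K q) {r, q} hsyne hsy ?_ ?_ ?_ ?_ ?_ ?_ ?_
  · rintro (h | h)
    · exact hrs.ne h.symm
    · exact hsq h
  · rintro (h | h)
    · exact hyr h
    · exact hqy.ne h.symm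
  · intro u hu v hv huv
    have hua := comp_sub_away hK hu
    rcases hv with h | h
    · exact hua.1 (huv.trans h)
    · have : u = q := huv.trans h
      exact hua.2.1 (this ▸ hrq)
  · intro u hu v hv huv
    have hua := comp_sub_away hK hu
    rcases hv with h | h
    · have : v = r := h
      subst this
      exact hua.2.1 huv.symm
    · have : v = q := h
      subst this
      exact hua.2.2 huv.symm
  · rintro v hv ⟨h1, h2⟩
    rcases hv with h | h
    · have : v = r := h
      subst this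
      exact hry h2.symm
    · have : v = q := h
      subst this
      exact hqs h1.symm
  · have h1 : (resG G (comp G r K q ∪ {s, y})).Reachable w w' :=
      resG_mono Set.subset_union_left (comp_conn hK hcl hw hw')
    have h2 : (resG G (comp G r K q ∪ {s, y})).Reachable s w :=
      Adj.reachable ⟨hsw, Or.inr (Or.inl rfl), Or.inl hw⟩
    have h3 : (resG G (comp G r K q ∪ {s, y})).Reachable w' y :=
      Adj.reachable ⟨hyw'.symm, Or.inl hw', Or.inr (Or.inr rfl)⟩
    exact (h2.trans h1).trans h3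
  · have h1 : (resG G ({r, q} ∪ {s, y})).Reachable s r :=
      Adj.reachable ⟨hrs.symm, Or.inr (Or.inl rfl), Or.inl (Or.inl rfl)⟩
    have h2 : (resG G ({r, q} ∪ {s, y})).Reachable r q :=
      Adj.reachable ⟨hrq, Or.inl (Or.inl rfl), Or.inl (Or.inr rfl)⟩
    have h3 : (resG G ({r, q} ∪ {s, y})).Reachable q y :=
      Adj.reachable ⟨hqy, Or.inl (Or.inr rfl), Or.inr (Or.inr rfl)⟩
    exact (h1.trans h2).trans h3

/-- **Star cutset lemma.** Let `K` be a clique without neighbours of `r`, not containing `r`, such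
that no neighbour of `r` is adjacent to all of `K`, and let `r` have a neighbour. Then for some
neighbour `q` of `r` the component `comp G r K q` has all its outer neighbours in the
neighbourhood of `q`. -/
theorem exists_end [Fintype V] (hG : ∀ n : ℕ, 5 ≤ n → IsEmpty (cycleGraph n ↪g G))
    (hK : ∀ k ∈ K, k ≠ r ∧ ¬ G.Adj r k) (hcl : G.IsClique (K : Set V))
    (hnc : ∀ s, G.Adj r s → ∃ k ∈ K, ¬ G.Adj s k) (hr : ∃ q, G.Adj r q) :
    ∃ q, G.Adj r q ∧ ∀ s, s ∉ comp G r K q → (∃ w ∈ comp G r K q, G.Adj s w) → G.Adj q s := by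
  classical
  let tau : V → Finset V := fun q => K.filter (fun k => G.Adj q k)
  let N := Fintype.card V
  let m : V → ℕ := fun q => (tau q).card * (N + 1) + (N - (comp G r K q).ncard)
  obtain ⟨q, hq, hmax⟩ := Finset.exists_max_image ((Finset.univ : Finset V).filter
    (fun q => G.Adj r q)) m (by
      obtain ⟨q, hq⟩ := hr
      exact ⟨q, by simpa using hq⟩)
  have hrq : G.Adj r q := by simpa using hq
  refine ⟨q, hrq, ?_⟩
  rintro s hs ⟨w, hw, hsw⟩
  have hwa := comp_sub_away hK hw
  by_contra hqs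
  have hsr : s ≠ r := by
    rintro rfl
    exact hwa.2.1 hsw
  have hrs : G.Adj r s := by
    by_contra hrs
    exact hs (comp_closed hK hw ⟨hsr, hrs, hqs⟩ hsw.symm)
  obtain ⟨k0, hk0, hqk0⟩ := hnc q hrq
  -- `s` is complete to the outer neighbours
  have hcomp : ∀ y, y ≠ r → ¬ G.Adj r y → G.Adj q y → (∃ w' ∈ comp G r K q, G.Adj y w') →
      G.Adj s y := by
    rintro y h1 h2 h3 ⟨w', h4, h5⟩
    exact complete_of_touch hG hK hcl hrq hrs hqs hw hsw h1 h2 h3 h4 h5
  have htau : tau q ⊆ tau s := by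
    intro k hk
    rw [Finset.mem_filter] at hk ⊢
    refine ⟨hk.1, hcomp k (hK k hk.1).1 (hK k hk.1).2 hk.2 ⟨k0, mem_comp_of_mem hk0 hqk0, ?_⟩⟩
    refine hcl hk.1 hk0 ?_
    rintro rfl
    exact hqk0 hk.2
  have hms := hmax s (by simpa using hrs)
  have hNs : N - (comp G r K s).ncard ≤ N := Nat.sub_le _ _
  have hNq : N - (comp G r K q).ncard ≤ N := Nat.sub_le _ _
  have hcard : (tau s).card ≤ (tau q).card := by
    by_contra hcon
    push Not at hcon
    have h1 : (tau q).card * (N + 1) + (N + 1) ≤ (tau s).card * (N + 1) := by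
      have : ((tau q).card + 1) * (N + 1) ≤ (tau s).card * (N + 1) :=
        Nat.mul_le_mul_right _ hcon
      linarith
    have h2 : m q < m s := by
      show (tau q).card * (N + 1) + (N - (comp G r K q).ncard) <
        (tau s).card * (N + 1) + (N - (comp G r K s).ncard)
      omega
    omega
  have heq : tau q = tau s := Finset.eq_of_subset_of_card_le htau hcard
  have hadj : ∀ k ∈ K, G.Adj s k → G.Adj q k := by
    intro k hk h
    have : k ∈ tau s := Finset.mem_filter.mpr ⟨hk, h⟩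
    rw [← heq] at this
    exact (Finset.mem_filter.mp this).2
  have hadj' : ∀ k ∈ K, G.Adj q k → G.Adj s k := by
    intro k hk h
    have : k ∈ tau q := Finset.mem_filter.mpr ⟨hk, h⟩
    rw [heq] at this
    exact (Finset.mem_filter.mp this).2
  have hsub : comp G r K s ⊆ comp G r K q := by
    rintro v ⟨k, hk, hsk, hr⟩
    refine reach_induct hr (fun v => v ∈ comp G r K q)
      (mem_comp_of_mem hk (fun h => hsk (hadj' k hk h))) ?_
    intro a b ha hab
    have hb := hab.2.2
    by_cases hqb : G.Adj q b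
    · exact absurd (hcomp b hb.1 hb.2.1 hqb ⟨a, ha, hab.1.symm⟩) hb.2.2
    · exact comp_closed hK ha ⟨hb.1, hb.2.1, hqb⟩ hab.1
  have hws : w ∉ comp G r K s := fun h => (comp_sub_away hK h).2.2 hsw
  have hlt : (comp G r K s).ncard < (comp G r K q).ncard :=
    Set.ncard_lt_ncard ⟨hsub, fun h => hws (h hw)⟩ (Set.toFinite _)
  have hle : (comp G r K q).ncard ≤ N := by
    have := Set.ncard_le_ncard (Set.subset_univ (comp G r K q)) (Set.toFinite _)
    rwa [Set.ncard_univ, Nat.card_eq_fintype_card] at this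
  have h2 : m q < m s := by
    show (tau q).card * (N + 1) + (N - (comp G r K q).ncard) <
      (tau s).card * (N + 1) + (N - (comp G r K s).ncard)
    rw [heq]
    omega
  omega

/-- The star cutset. -/
theorem exists_star_cutset [Fintype V] (hG : ∀ n : ℕ, 5 ≤ n → IsEmpty (cycleGraph n ↪g G))
    (hK : ∀ k ∈ K, k ≠ r ∧ ¬ G.Adj r k) (hcl : G.IsClique (K : Set V))
    (hnc : ∀ s, G.Adj r s → ∃ k ∈ K, ¬ G.Adj s k) (hr : ∃ q, G.Adj r q) :
    ∃ q, G.Adj r q ∧ ∃ X : Set V, q ∈ X ∧ (∀ x ∈ X, x ≠ q → G.Adj q x) ∧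
      ∃ (hrX : r ∈ Xᶜ) (k : V) (hkX : k ∈ Xᶜ), k ∈ K ∧
        ¬ (G.induce Xᶜ).Reachable ⟨r, hrX⟩ ⟨k, hkX⟩ := by
  obtain ⟨q, hrq, hq⟩ := exists_end hG hK hcl hnc hr
  obtain ⟨k, hk, hqk⟩ := hnc q hrq
  set W := comp G r K q with hW
  have hkW : k ∈ W := mem_comp_of_mem hk hqk
  have hka := comp_sub_away hK hkW
  set X : Set V := {x | x = q ∨ (x ∉ W ∧ ∃ w ∈ W, G.Adj x w)} with hX
  have hrX : r ∈ Xᶜ := by
    rintro (h | ⟨_, w, hw, hrw⟩)
    · exact hrq.ne h
    · exact (comp_sub_away hK hw).2.1 hrw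
  have hkX : k ∈ Xᶜ := by
    rintro (h | ⟨h, _⟩)
    · exact hka.2.1 (h ▸ hrq)
    · exact h hkW
  refine ⟨q, hrq, X, Or.inl rfl, ?_, hrX, k, hkX, hk, ?_⟩
  · rintro x (h | ⟨h1, h2⟩) hxq
    · exact absurd h hxq
    · exact hq x h1 h2
  · intro hreach
    have h := reach_induct hreach.symm (fun v : ↥(Xᶜ) => (v : V) ∈ W) hkW ?_
    · exact (comp_sub_away hK h).1 rfl
    · intro u v hu huv
      by_contra hv
      exact v.2 (Or.inr ⟨hv, u, hu, huv.symm⟩)

end

end Pool.Agent.LongHole
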