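import Mathlib
import Pool.Agent.LongHole.Star

/-!
Descending pivots: in a graph without induced cycles of length at least five with no clique of
size `w + 1`, let `Z` be a set of vertices outside the closed neighbourhood of `r` such that `Z`
together with any neighbour of `r` is `w`-colourable. Then for every neighbour `s` of `r` there
is a stable set `W` in `Z`, outside the neighbourhood of `s`, which meets every clique of size `w`
of `Z` and contains no vertex complete to a clique of size `w - 1` in the neighbourhood of `r`.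
-/

set_option autoImplicit false

namespace Pool.Agent.LongHole

open SimpleGraph

variable {V : Type*} {G : SimpleGraph V} {r : V}

/-- A neighbour `x` of `r` which is not adjacent to the neighbour `s` of `r` and touches a
connected set `D` away from `r` and `s` is complete to the neighbours of `s` which touch `D`. -/
lemma complete_of_touch_set (hG : ∀ n : ℕ, 5 ≤ n → IsEmpty (cycleGraph n ↪g G))
    {D : Set V} (hconn : ∀ u ∈ D, ∀ v ∈ D, (resG G D).Reachable u v)
    (hDr : ∀ u ∈ D, u ≠ r ∧ ¬ G.Adj r u) {s x y w w' : V} (hDs : ∀ u ∈ D, ¬ G.Adj s u)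
    (hrs : G.Adj r s) (hrx : G.Adj r x) (hsx : ¬ G.Adj s x) (hw : w ∈ D) (hxw : G.Adj x w)
    (hyr : y ≠ r) (hry : ¬ G.Adj r y) (hsy : G.Adj s y) (hw' : w' ∈ D) (hyw' : G.Adj y w') :
    G.Adj x y := by
  by_contra hxy
  have hxyne : x ≠ y := fun h => hry (h ▸ hrx)
  have hxs : x ≠ s := by
    rintro rfl
    exact hDs _ hw hxw
  refine two_path G hG x y D {r, s} hxyne hxy ?_ ?_ ?_ ?_ ?_ ?_ ?_
  · rintro (h | h)
    · exact hrx.ne h.symm
    · exact hxs h
  · rintro (h | h)
    · exact hyr h
    · exact hsy.ne h.symm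
  · intro u hu v hv huv
    rcases hv with h | h
    · exact (hDr u hu).1 (huv.trans h)
    · have : u = s := huv.trans h
      exact (hDr u hu).2 (this ▸ hrs)
  · intro u hu v hv huv
    rcases hv with h | h
    · have : v = r := h
      subst this
      exact (hDr u hu).2 huv.symm
    · have : v = s := h
      subst this
      exact hDs u hu huv.symm
  · rintro v hv ⟨h1, h2⟩
    rcases hv with h | h
    · have : v = r := h
      subst this
      exact hry h2.symm
    · have : v = s := h
      subst this
      exact hsx h1.symm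
  · have h1 : (resG G (D ∪ {x, y})).Reachable w w' :=
      resG_mono Set.subset_union_left (hconn w hw w' hw')
    have h2 : (resG G (D ∪ {x, y})).Reachable x w :=
      Adj.reachable ⟨hxw, Or.inr (Or.inl rfl), Or.inl hw⟩
    have h3 : (resG G (D ∪ {x, y})).Reachable w' y :=
      Adj.reachable ⟨hyw'.symm, Or.inl hw', Or.inr (Or.inr rfl)⟩
    exact (h2.trans h1).trans h3
  · have h1 : (resG G ({r, s} ∪ {x, y})).Reachable x r :=
      Adj.reachable ⟨hrx.symm, Or.inr (Or.inl rfl), Or.inl (Or.inl rfl)⟩
    have h2 : (resG G ({r, s} ∪ {x, y})).Reachable r s :=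
      Adj.reachable ⟨hrs, Or.inl (Or.inl rfl), Or.inl (Or.inr rfl)⟩
    have h3 : (resG G ({r, s} ∪ {x, y})).Reachable s y :=
      Adj.reachable ⟨hsy, Or.inl (Or.inr rfl), Or.inr (Or.inr rfl)⟩
    exact (h1.trans h2).trans h3

/-- `v` is not complete to any clique of size `w - 1` of the neighbourhood of `r`. -/
def NotTight (G : SimpleGraph V) (r : V) (w : ℕ) (v : V) : Prop :=
  ∀ K : Finset V, (∀ k ∈ K, G.Adj r k) → G.IsClique (K : Set V) → K.card = w - 1 →
    ∃ k ∈ K, ¬ G.Adj v k

/-- Reachability inside a class stays in the class. -/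
lemma reach_class {U : Set V} {z : V} (hz : z ∈ U) {v : V} (hv : (resG G U).Reachable z v) :
    v ∈ U ∧ (resG G {v | v ∈ U ∧ (resG G U).Reachable z v}).Reachable z v := by
  refine reach_induct hv (fun v => v ∈ U ∧
    (resG G {v | v ∈ U ∧ (resG G U).Reachable z v}).Reachable z v) ⟨hz, Reachable.refl _⟩ ?_
  intro a b ha hab
  have hza : (resG G U).Reachable z a := reach_induct (ha.2) (fun v => (resG G U).Reachable z v)
    (Reachable.refl _) (fun u v _ h => h.2.2.2)
  have hzb : (resG G U).Reachable z b := hza.trans (Adj.reachable hab)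
  exact ⟨hab.2.2, ha.2.trans (Adj.reachable ⟨hab.1, ⟨hab.2.1, hza⟩, ⟨hab.2.2, hzb⟩⟩)⟩

/-- The main theorem of descending pivots. -/
theorem pivot [Fintype V] [DecidableEq V] (hG : ∀ n : ℕ, 5 ≤ n → IsEmpty (cycleGraph n ↪g G))
    {w : ℕ} (hw : 2 ≤ w) (hfree : G.CliqueFree (w + 1)) :
    ∀ (n : ℕ) (Z : Finset V) (s : V), (Set.ncard {z | z ∈ Z ∧ ¬ G.Adj s z}) ≤ n →
      (∀ z ∈ Z, z ≠ r ∧ ¬ G.Adj r z) → G.Adj r s →
      (∀ x, G.Adj r x → (G.induce (insert x (Z : Set V))).Colorable w) →
      ∃ W : Finset V, W ⊆ Z ∧ (∀ v ∈ W, ¬ G.Adj s v) ∧ (∀ v ∈ W, NotTight G r w v) ∧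
        (∀ u ∈ W, ∀ v ∈ W, ¬ G.Adj u v) ∧
        (∀ Q : Finset V, Q ⊆ Z → G.IsClique (Q : Set V) → Q.card = w → ∃ v ∈ Q, v ∈ W) := by
  classical
  intro n
  induction n with
  | zero =>
    intro Z s hn hZ hrs _
    refine ⟨∅, Finset.empty_subset _, by simp, by simp, by simp, ?_⟩
    intro Q hQ hcl hcard
    exfalso
    have h0 : {z | z ∈ Z ∧ ¬ G.Adj s z} = ∅ := by
      rw [← Set.ncard_eq_zero (Set.toFinite _)]
      omega
    have hall : ∀ z ∈ Q, G.Adj s z := by
      intro z hz
      by_contra hcon
      have : z ∈ ({z | z ∈ Z ∧ ¬ G.Adj s z} : Set V) := ⟨hQ hz, hcon⟩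
      rw [h0] at this
      exact this
    have hsQ : s ∉ Q := fun h => G.loopless.irrefl s (hall s h)
    refine hfree (insert s Q) ⟨?_, ?_⟩
    · rw [Finset.coe_insert]
      exact hcl.insert (fun b hb _ => hall b (by exact_mod_cast hb))
    · rw [Finset.card_insert_of_notMem hsQ, hcard]
  | succ n ih =>
    intro Z s hn hZ hrs hcol
    set U : Set V := {z | z ∈ Z ∧ ¬ G.Adj s z} with hU
    -- the solution for one component
    have hstep : ∀ z : V, ∃ W : Finset V, z ∈ U →
        ((∀ v ∈ W, v ∈ U ∧ (resG G U).Reachable z v) ∧ (∀ v ∈ W, NotTight G r w v) ∧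
        (∀ u ∈ W, ∀ v ∈ W, ¬ G.Adj u v) ∧
        (∀ Q : Finset V, Q ⊆ Z → (∃ v ∈ Q, v ∈ U ∧ (resG G U).Reachable z v) →
          G.IsClique (Q : Set V) → Q.card = w → ∃ v ∈ Q, v ∈ W)) := by
      intro z
      by_cases hz : z ∈ U
      swap
      · exact ⟨∅, fun h => absurd h hz⟩
      set D : Set V := {v | v ∈ U ∧ (resG G U).Reachable z v} with hD
      have hzD : z ∈ D := ⟨hz, Reachable.refl _⟩
      have hDZ : ∀ u ∈ D, u ∈ Z := fun u hu => hu.1.1
      have hDs : ∀ u ∈ D, ¬ G.Adj s u := fun u hu => hu.1.2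
      have hDr : ∀ u ∈ D, u ≠ r ∧ ¬ G.Adj r u := fun u hu => hZ u hu.1.1
      have hconn : ∀ u ∈ D, ∀ v ∈ D, (resG G D).Reachable u v := by
        intro u hu v hv
        exact (reach_class hz hu.2).2.symm.trans (reach_class hz hv.2).2
      have hclosed : ∀ u ∈ D, ∀ v ∈ U, G.Adj u v → v ∈ D := by
        intro u hu v hv huv
        exact ⟨hv, hu.2.trans (Adj.reachable ⟨huv, hu.1, hv⟩)⟩
      by_cases hx : ∃ x, G.Adj r x ∧ ¬ G.Adj s x ∧ ∃ d ∈ D, G.Adj x d
      · obtain ⟨x, hrx, hsx, d, hd, hxd⟩ := hx
        let Z' : Finset V := Z.filter (fun v => v ∈ D ∨ ∃ d ∈ D, G.Adj v d)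
        have hZ'Z : Z' ⊆ Z := Finset.filter_subset _ _
        have hkey : ∀ v ∈ Z', ¬ G.Adj x v → v ∈ D := by
          intro v hv hxv
          rw [Finset.mem_filter] at hv
          rcases hv.2 with h | ⟨d', hd', hvd'⟩
          · exact h
          · by_cases hsv : G.Adj s v
            · exact absurd (complete_of_touch_set hG hconn hDr hDs hrs hrx hsx hd hxd
                (hZ v hv.1).1 (hZ v hv.1).2 hsv hd' hvd') hxv
            · exact hclosed d' hd' v ⟨hv.1, hsv⟩ hvd'.symm
        have hcard : Set.ncard {z | z ∈ Z' ∧ ¬ G.Adj x z} ≤ n := by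
          have hlt : Set.ncard {z | z ∈ Z' ∧ ¬ G.Adj x z} < Set.ncard U := by
            apply Set.ncard_lt_ncard _ (Set.toFinite _)
            refine ⟨fun v hv => (hkey v hv.1 hv.2).1, fun h => ?_⟩
            exact (h hd.1).2 hxd
          omega
        obtain ⟨W, h1, h2, h3, h4, h5⟩ := ih Z' x hcard (fun v hv => hZ v (hZ'Z hv)) hrx
          (fun y hy => (hcol y hy).of_hom (induceHomOfLE G (by
            apply Set.insert_subset_insert
            exact_mod_cast hZ'Z)).toHom)
        refine ⟨W, fun _ => ⟨fun v hv => hkey v (h1 hv) (h2 v hv), h3, h4, ?_⟩⟩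
        rintro Q hQ ⟨z0, hzQ, hz0⟩ hcl hc
        refine h5 Q ?_ hcl hc
        intro v hv
        rw [Finset.mem_filter]
        refine ⟨hQ hv, ?_⟩
        by_cases hvz : v = z0
        · exact Or.inl (hvz ▸ hz0)
        · exact Or.inr ⟨z0, hz0, hcl hv hzQ hvz⟩
      · push Not at hx
        obtain ⟨C⟩ := hcol s hrs
        let cs : Fin w := C ⟨s, Set.mem_insert _ _⟩
        let W : Finset V := Finset.univ.filter (fun v => v ∈ D ∧
          ∃ hv : v ∈ insert s (Z : Set V), C ⟨v, hv⟩ = cs)
        have hW : ∀ v ∈ W, v ∈ D ∧ ∃ hv : v ∈ insert s (Z : Set V), C ⟨v, hv⟩ = cs := by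
          intro v hv
          exact (Finset.mem_filter.mp hv).2
        refine ⟨W, fun _ => ⟨fun v hv => (hW v hv).1, ?_, ?_, ?_⟩⟩
        · intro v hv K hK hcl hc
          by_contra hcon
          push Not at hcon
          have hvD := (hW v hv).1
          have hsk : ∀ k ∈ K, G.Adj s k := by
            intro k hk
            by_contra hsk
            exact hx k (hK k hk) hsk v hvD (hcon k hk).symm
          have hsK : s ∉ K := fun h => hDs v hvD (hcon s h).symm
          have hrK : r ∉ insert s K := by
            intro h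
            rw [Finset.mem_insert] at h
            rcases h with h | h
            · exact hrs.ne h
            · exact G.loopless.irrefl r (hK r h)
          refine hfree (insert r (insert s K)) ⟨?_, ?_⟩
          · rw [Finset.coe_insert, Finset.coe_insert]
            refine (hcl.insert (fun b hb _ => hsk b (by exact_mod_cast hb))).insert ?_
            intro b hb _
            rcases hb with h | h
            · rw [h]
              exact hrs
            · exact hK b (by exact_mod_cast h)
          · rw [Finset.card_insert_of_notMem hrK, Finset.card_insert_of_notMem hsK, hc]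
            omega
        · intro u hu v hv huv
          obtain ⟨_, hu', hcu⟩ := hW u hu
          obtain ⟨_, hv', hcv⟩ := hW v hv
          have hadj : (G.induce (insert s (Z : Set V))).Adj ⟨u, hu'⟩ ⟨v, hv'⟩ := huv
          exact C.valid hadj (hcu.trans hcv.symm)
        · rintro Q hQ ⟨z0, hzQ, hz0⟩ hcl hc
          -- all colours occur on `Q`
          have hmem : ∀ v ∈ Q, v ∈ insert s (Z : Set V) := fun v hv =>
            Set.mem_insert_of_mem _ (by exact_mod_cast hQ hv)
          have himg : (Finset.univ : Finset (Fin w)) =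
              Q.attach.image (fun v => C ⟨v.1, hmem v.1 v.2⟩) := by
            symm
            apply Finset.eq_univ_of_card
            rw [Finset.card_image_of_injective, Finset.card_attach, hc, Fintype.card_fin]
            intro a b hab
            by_contra hne
            have hne' : a.1 ≠ b.1 := fun h => hne (Subtype.ext h)
            have hadj : (G.induce (insert s (Z : Set V))).Adj ⟨a.1, hmem a.1 a.2⟩
                ⟨b.1, hmem b.1 b.2⟩ := hcl a.2 b.2 hne'
            exact C.valid hadj hab
          have hcs : cs ∈ Q.attach.image (fun v => C ⟨v.1, hmem v.1 v.2⟩) := by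
            rw [← himg]
            exact Finset.mem_univ _
          obtain ⟨v, _, hv⟩ := Finset.mem_image.mp hcs
          have hsv : ¬ G.Adj s v.1 := by
            intro h
            have hadj : (G.induce (insert s (Z : Set V))).Adj ⟨s, Set.mem_insert _ _⟩
                ⟨v.1, hmem v.1 v.2⟩ := h
            exact C.valid hadj hv.symm
          have hvU : v.1 ∈ U := ⟨hQ v.2, hsv⟩
          have hvD : v.1 ∈ D := by
            by_cases hvz : v.1 = z0
            · exact hvz ▸ hz0
            · exact hclosed z0 hz0 v.1 hvU (hcl hzQ v.2 (Ne.symm hvz))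
          exact ⟨v.1, v.2, Finset.mem_filter.mpr ⟨Finset.mem_univ _, hvD, hmem v.1 v.2, hv⟩⟩
    -- choose one set for every component
    let rep : V → V := fun z => if hz : z ∈ U then
      Quot.out ((resG G U).connectedComponentMk z) else z
    have hrep : ∀ z ∈ U, (resG G U).Reachable z (rep z) := by
      intro z hz
      have h1 : (resG G U).connectedComponentMk (Quot.out ((resG G U).connectedComponentMk z)) =
        (resG G U).connectedComponentMk z := Quot.out_eq _
      have h2 := ConnectedComponent.exact h1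
      simp only [rep, hz, dif_pos]
      exact h2.symm
    have hrepU : ∀ z ∈ U, rep z ∈ U := fun z hz => (reach_class hz (hrep z hz)).1
    have hrepeq : ∀ u ∈ U, ∀ v ∈ U, (resG G U).Reachable u v → rep u = rep v := by
      intro u hu v hv huv
      simp only [rep, hu, hv, dif_pos]
      rw [ConnectedComponent.sound huv]
    choose f hf using hstep
    let W : Finset V := Finset.univ.filter (fun v => v ∈ U ∧ v ∈ f (rep v))
    have hW : ∀ v ∈ W, v ∈ U ∧ v ∈ f (rep v) := fun v hv => (Finset.mem_filter.mp hv).2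
    refine ⟨W, fun v hv => (hW v hv).1.1, fun v hv => (hW v hv).1.2, ?_, ?_, ?_⟩
    · intro v hv
      obtain ⟨h1, h2⟩ := hW v hv
      exact (hf (rep v) (hrepU v h1)).2.1 v h2
    · intro u hu v hv huv
      obtain ⟨h1, h2⟩ := hW u hu
      obtain ⟨h3, h4⟩ := hW v hv
      have he : rep u = rep v := hrepeq u h1 v h3 (Adj.reachable ⟨huv, h1, h3⟩)
      rw [← he] at h4
      exact (hf (rep u) (hrepU u h1)).2.2.1 u h2 v h4 huv
    · intro Q hQ hcl hc
      have hex : ∃ z ∈ Q, ¬ G.Adj s z := by
        by_contra hcon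
        push Not at hcon
        have hsQ : s ∉ Q := fun h => G.loopless.irrefl s (hcon s h)
        refine hfree (insert s Q) ⟨?_, ?_⟩
        · rw [Finset.coe_insert]
          exact hcl.insert (fun b hb _ => hcon b (by exact_mod_cast hb))
        · rw [Finset.card_insert_of_notMem hsQ, hc]
      obtain ⟨z, hz, hsz⟩ := hex
      have hzU : z ∈ U := ⟨hQ hz, hsz⟩
      have hF := hf (rep z) (hrepU z hzU)
      obtain ⟨v, hvQ, hv⟩ := hF.2.2.2 Q hQ ⟨z, hz, hzU, (hrep z hzU).symm⟩ hcl hc
      obtain ⟨hvU, hvr⟩ := hF.1 v hv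
      refine ⟨v, hvQ, Finset.mem_filter.mpr ⟨Finset.mem_univ _, hvU, ?_⟩⟩
      have he : rep z = rep v := by
        have h1 : (resG G U).Reachable z v := (hrep z hzU).trans hvr
        exact hrepeq z hzU v hvU h1
      rw [← he]
      exact hv

end Pool.Agent.LongHole
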