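import Mathlib
import Pool.Agent.LongHole.Star
import Pool.Agent.LongHole.Pivot

/-!
Chordal graphs plus one vertex, without induced cycles of length at least five, have chromatic
number equal to the clique number.
-/

set_option autoImplicit false

namespace Pool.Agent.LongHole

open SimpleGraph

variable {V : Type*} {G : SimpleGraph V}

/-- No induced four-cycle inside `Z`. -/
def NoC4 (G : SimpleGraph V) (Z : Set V) : Prop :=
  ∀ a b c d, a ∈ Z → b ∈ Z → c ∈ Z → d ∈ Z → G.Adj a b → G.Adj b c → G.Adj c d → G.Adj d a →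
    a ≠ c → b ≠ d → G.Adj a c ∨ G.Adj b d

lemma NoC4.mono {Z Z' : Set V} (h : NoC4 G Z) (hs : Z' ⊆ Z) : NoC4 G Z' :=
  fun a b c d ha hb hc hd => h a b c d (hs ha) (hs hb) (hs hc) (hs hd)

/-- The neighbours of `b` which touch a component away from `b` form a clique. -/
lemma sep_clique (hG : ∀ n : ℕ, 5 ≤ n → IsEmpty (cycleGraph n ↪g G)) {Z : Set V}
    (h4 : NoC4 G Z) {C : Set V} (hCZ : C ⊆ Z)
    (hconn : ∀ u ∈ C, ∀ v ∈ C, (resG G C).Reachable u v) {b : V} (hb : b ∈ Z)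
    (hbC : ∀ c ∈ C, c ≠ b ∧ ¬ G.Adj b c) {s s' c c' : V} (hs : s ∈ Z) (hs' : s' ∈ Z)
    (hsC : s ∉ C) (hsC' : s' ∉ C) (hne : s ≠ s') (hsb : G.Adj b s) (hsb' : G.Adj b s')
    (hc : c ∈ C) (hsc : G.Adj s c) (hc' : c' ∈ C) (hsc' : G.Adj s' c') : G.Adj s s' := by
  by_contra hss
  by_cases hcom : ∃ d ∈ C, G.Adj s d ∧ G.Adj s' d
  · obtain ⟨d, hd, h1, h2⟩ := hcom
    rcases h4 s b s' d hs hb hs' (hCZ hd) hsb.symm hsb' h2 h1.symm hne (hbC d hd).1.symm with h | h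
    · exact hss h
    · exact (hbC d hd).2 h
  · push Not at hcom
    refine two_path G hG s s' {b} C hne hss hsC hsC' ?_ ?_ ?_ ?_ ?_
    · intro u hu v hv huv
      have hu' : u = b := hu
      exact (hbC v hv).1 (huv.symm.trans hu')
    · intro u hu v hv huv
      have hu' : u = b := hu
      subst hu'
      exact (hbC v hv).2 huv
    · rintro v hv ⟨h1, h2⟩
      exact hcom v hv h1 h2
    · have h1 : (resG G ({b} ∪ {s, s'})).Reachable s b :=
        Adj.reachable ⟨hsb.symm, Or.inr (Or.inl rfl), Or.inl rfl⟩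
      have h2 : (resG G ({b} ∪ {s, s'})).Reachable b s' :=
        Adj.reachable ⟨hsb', Or.inl rfl, Or.inr (Or.inr rfl)⟩
      exact h1.trans h2
    · have h1 : (resG G (C ∪ {s, s'})).Reachable c c' :=
        resG_mono Set.subset_union_left (hconn c hc c' hc')
      have h2 : (resG G (C ∪ {s, s'})).Reachable s c :=
        Adj.reachable ⟨hsc, Or.inr (Or.inl rfl), Or.inl hc⟩
      have h3 : (resG G (C ∪ {s, s'})).Reachable c' s' :=
        Adj.reachable ⟨hsc'.symm, Or.inl hc', Or.inr (Or.inr rfl)⟩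
      exact (h2.trans h1).trans h3

/-- `c` is simplicial in `Z`. -/
def Simp (G : SimpleGraph V) (Z : Finset V) (c : V) : Prop :=
  ∀ x ∈ Z, ∀ y ∈ Z, G.Adj c x → G.Adj c y → x ≠ y → G.Adj x y

/-- Dirac's lemma. -/
theorem dirac (hG : ∀ n : ℕ, 5 ≤ n → IsEmpty (cycleGraph n ↪g G)) :
    ∀ (n : ℕ) (Z : Finset V), Z.card ≤ n → NoC4 G (Z : Set V) → ∀ a b, a ∈ Z → b ∈ Z →
      a ≠ b → ¬ G.Adj b a → ∃ c ∈ Z, c ≠ b ∧ ¬ G.Adj b c ∧ Simp G Z c := by
  classical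
  intro n
  induction n with
  | zero =>
    intro Z hZ _ a _ ha
    have : Z = ∅ := Finset.card_eq_zero.mp (by omega)
    rw [this] at ha
    simp at ha
  | succ n ih =>
    intro Z hZn h4 a b ha hb hab hba
    set U : Set V := {v | v ∈ Z ∧ v ≠ b ∧ ¬ G.Adj b v} with hU
    have haU : a ∈ U := ⟨ha, hab, hba⟩
    set C : Set V := {v | v ∈ U ∧ (resG G U).Reachable a v} with hC
    have haC : a ∈ C := ⟨haU, Reachable.refl _⟩
    have hCZ : C ⊆ (Z : Set V) := fun v hv => by exact_mod_cast hv.1.1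
    have hconn : ∀ u ∈ C, ∀ v ∈ C, (resG G C).Reachable u v := by
      intro u hu v hv
      exact (reach_class haU hu.2).2.symm.trans (reach_class haU hv.2).2
    have hclosed : ∀ u ∈ C, ∀ v ∈ U, G.Adj u v → v ∈ C := by
      intro u hu v hv huv
      exact ⟨hv, hu.2.trans (Adj.reachable ⟨huv, hu.1, hv⟩)⟩
    have hbC : ∀ c ∈ C, c ≠ b ∧ ¬ G.Adj b c := fun c hc => hc.1.2
    have hS : ∀ v ∈ Z, v ∉ C → (∃ c ∈ C, G.Adj v c) → G.Adj b v := by
      rintro v hv hvC ⟨c, hc, hvc⟩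
      by_contra hbv
      have hvb : v ≠ b := by
        rintro rfl
        exact (hbC c hc).2 hvc
      exact hvC (hclosed c hc v ⟨hv, hvb, hbv⟩ hvc.symm)
    let Z1 : Finset V := Z.filter (fun v => v ∈ C ∨ ∃ c ∈ C, G.Adj v c)
    have hZ1Z : Z1 ⊆ Z := Finset.filter_subset _ _
    have hbZ1 : b ∉ Z1 := by
      intro h
      rcases (Finset.mem_filter.mp h).2 with h | ⟨c, hc, hbc⟩
      · exact (hbC b h).1 rfl
      · exact (hbC c hc).2 hbc
    have hcard : Z1.card ≤ n := by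
      have : Z1.card < Z.card := Finset.card_lt_card ⟨hZ1Z, fun h => hbZ1 (h hb)⟩
      omega
    have h41 : NoC4 G (Z1 : Set V) := h4.mono (by exact_mod_cast hZ1Z)
    have hcl : ∀ s ∈ Z1, ∀ s' ∈ Z1, s ∉ C → s' ∉ C → s ≠ s' → G.Adj s s' := by
      intro s hs s' hs' hsC hsC' hne
      obtain ⟨hsZ, hs2⟩ := Finset.mem_filter.mp hs
      obtain ⟨hsZ', hs2'⟩ := Finset.mem_filter.mp hs'
      obtain ⟨c, hc, hsc⟩ := hs2.resolve_left hsC
      obtain ⟨c', hc', hsc'⟩ := hs2'.resolve_left hsC'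
      exact sep_clique hG h4 hCZ hconn (by exact_mod_cast hb) hbC (by exact_mod_cast hsZ)
        (by exact_mod_cast hsZ') hsC hsC' hne (hS s hsZ hsC ⟨c, hc, hsc⟩)
        (hS s' hsZ' hsC' ⟨c', hc', hsc'⟩) hc hsc hc' hsc'
    have hlift : ∀ c ∈ C, Simp G Z1 c → ∃ c ∈ Z, c ≠ b ∧ ¬ G.Adj b c ∧ Simp G Z c := by
      intro c hc hsim
      refine ⟨c, by exact_mod_cast hCZ hc, (hbC c hc).1, (hbC c hc).2, ?_⟩
      intro x hx y hy hcx hcy hxy
      exact hsim x (Finset.mem_filter.mpr ⟨hx, Or.inr ⟨c, hc, hcx.symm⟩⟩) y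
        (Finset.mem_filter.mpr ⟨hy, Or.inr ⟨c, hc, hcy.symm⟩⟩) hcx hcy hxy
    by_cases h1 : ∃ s ∈ Z1, s ∉ C ∧ ∃ v ∈ Z1, v ≠ s ∧ ¬ G.Adj s v
    · obtain ⟨s, hs, hsC, v, hv, hvs, hsv⟩ := h1
      obtain ⟨c, hc, hcs, hsc, hsim⟩ := ih Z1 hcard h41 v s hv hs hvs hsv
      have hcC : c ∈ C := by
        by_contra hcC
        exact hsc (hcl s hs c hc hsC hcC hcs.symm)
      exact hlift c hcC hsim
    push Not at h1
    by_cases h2 : ∃ u ∈ C, ∃ v ∈ C, v ≠ u ∧ ¬ G.Adj u v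
    · obtain ⟨u, hu, v, hv, hvu, huv⟩ := h2
      have hC1 : ∀ x ∈ C, x ∈ Z1 := fun x hx =>
        Finset.mem_filter.mpr ⟨by exact_mod_cast hCZ hx, Or.inl hx⟩
      obtain ⟨c, hc, hcu, huc, hsim⟩ := ih Z1 hcard h41 v u (hC1 v hv) (hC1 u hu) hvu huv
      have hcC : c ∈ C := by
        by_contra hcC
        exact huc (h1 c hc hcC u (hC1 u hu) hcu.symm).symm
      exact hlift c hcC hsim
    push Not at h2
    refine hlift a haC ?_
    intro x hx y hy hax hay hxy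
    by_cases hxC : x ∈ C
    · by_cases hyC : y ∈ C
      · exact h2 x hxC y hyC hxy.symm
      · exact (h1 y hy hyC x hx hxy).symm
    · exact h1 x hx hxC y hy hxy.symm

/-- A nonempty chordal set has a simplicial vertex. -/
theorem exists_simp (hG : ∀ n : ℕ, 5 ≤ n → IsEmpty (cycleGraph n ↪g G)) {Z : Finset V}
    (hne : Z.Nonempty) (h4 : NoC4 G (Z : Set V)) : ∃ c ∈ Z, Simp G Z c := by
  by_cases h : ∃ a ∈ Z, ∃ b ∈ Z, a ≠ b ∧ ¬ G.Adj b a
  · obtain ⟨a, ha, b, hb, hab, hba⟩ := h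
    obtain ⟨c, hc, _, _, hs⟩ := dirac hG _ Z le_rfl h4 a b ha hb hab hba
    exact ⟨c, hc, hs⟩
  · push Not at h
    obtain ⟨c, hc⟩ := hne
    exact ⟨c, hc, fun x hx y hy _ _ hxy => h y hy x hx hxy.symm⟩

end Pool.Agent.LongHole
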