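import Mathlib
import Pool.Agent.LongHole.Chord

/-!
Colourings of chordal graphs plus one vertex, without induced cycles of length at least five.
-/

set_option autoImplicit false

namespace Pool.Agent.LongHole

open SimpleGraph

variable {V : Type*} {G : SimpleGraph V}

/-- Induced path with vertices `p 0, ..., p l`. -/
structure IP (G : SimpleGraph V) (l : ℕ) (p : ℕ → V) : Prop where
  adj : ∀ i j, i ≤ l → j ≤ l → (G.Adj (p i) (p j) ↔ (i + 1 = j ∨ j + 1 = i))
  inj : ∀ i j, i ≤ l → j ≤ l → p i = p j → i = j

lemma IP.take {l m : ℕ} {p : ℕ → V} (h : IP G l p) (hm : m ≤ l) : IP G m p :=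
  ⟨fun i j hi hj => h.adj i j (hi.trans hm) (hj.trans hm),
    fun i j hi hj => h.inj i j (hi.trans hm) (hj.trans hm)⟩

lemma IP.rev {l : ℕ} {p : ℕ → V} (h : IP G l p) : IP G l (fun i => p (l - i)) := by
  refine ⟨fun i j hi hj => ?_, fun i j hi hj hij => ?_⟩
  · rw [h.adj _ _ (by omega) (by omega)]
    omega
  · have := h.inj _ _ (by omega) (by omega) hij
    omega

/-- Extension of an induced path by one vertex. -/
lemma IP.snoc {l : ℕ} {p : ℕ → V} (h : IP G l p) {v : V} (hne : ∀ i, i ≤ l → v ≠ p i)
    (hadj : ∀ i, i ≤ l → (G.Adj v (p i) ↔ i = l)) :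
    IP G (l + 1) (fun i => if i ≤ l then p i else v) := by
  refine ⟨fun i j hi hj => ?_, fun i j hi hj hij => ?_⟩
  · by_cases h1 : i ≤ l <;> by_cases h2 : j ≤ l
    · simp only [h1, h2, if_true]
      exact h.adj i j h1 h2
    · simp only [h1, h2, if_true, if_false]
      rw [G.adj_comm, hadj i h1]
      omega
    · simp only [h1, h2, if_true, if_false]
      rw [hadj j h2]
      omega
    · simp only [h1, h2, if_false]
      constructor
      · intro h3
        exact absurd h3 (G.loopless.irrefl v)
      · omega
  · by_cases h1 : i ≤ l <;> by_cases h2 : j ≤ l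
    · simp only [h1, h2, if_true] at hij
      exact h.inj i j h1 h2 hij
    · simp only [h1, h2, if_true, if_false] at hij
      exact absurd hij.symm (hne i h1)
    · simp only [h1, h2, if_true, if_false] at hij
      exact absurd hij (hne j h2)
    · omega

/-- A vertex adjacent to exactly the ends of an induced path of length at least three. -/
lemma IP.hole (hG : ∀ n : ℕ, 5 ≤ n → IsEmpty (cycleGraph n ↪g G)) {l : ℕ} {p : ℕ → V}
    (h : IP G l p) (hl : 3 ≤ l) {v : V} (hne : ∀ i, i ≤ l → v ≠ p i) (h0 : G.Adj v (p 0))
    (h1 : G.Adj v (p l)) (h2 : ∀ i, 0 < i → i < l → ¬ G.Adj v (p i)) : False := by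
  have key : ∀ i, i ≤ l → 0 < i →
      (resG G ({x | ∃ i, 0 < i ∧ i < l ∧ x = p i} ∪ {p 0, p l})).Reachable (p 0) (p i) := by
    intro i
    induction i with
    | zero => intro _ h; omega
    | succ i ih =>
      intro hi _
      have hmem : ∀ j, j ≤ l → p j ∈ ({x | ∃ i, 0 < i ∧ i < l ∧ x = p i} ∪ {p 0, p l} : Set V) := by
        intro j hj
        rcases Nat.eq_zero_or_pos j with h3 | h3
        · exact Or.inr (Or.inl (by rw [h3]))
        · rcases Nat.lt_or_ge j l with h4 | h4
          · exact Or.inl ⟨j, h3, h4, rfl⟩
          · have : j = l := le_antisymm hj h4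
            exact Or.inr (Or.inr (by rw [this]; rfl))
      have hstep : (resG G ({x | ∃ i, 0 < i ∧ i < l ∧ x = p i} ∪ {p 0, p l})).Adj (p i)
          (p (i + 1)) := ⟨(h.adj i (i + 1) (by omega) hi).mpr (Or.inl rfl), hmem i (by omega),
            hmem (i + 1) hi⟩
      rcases Nat.eq_zero_or_pos i with h3 | h3
      · subst h3
        exact Adj.reachable hstep
      · exact (ih (by omega) h3).trans (Adj.reachable hstep)
  refine two_path G hG (p 0) (p l) {v} {x | ∃ i, 0 < i ∧ i < l ∧ x = p i} ?_ ?_ ?_ ?_ ?_ ?_ ?_
    ?_ ?_
  · intro h3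
    have := h.inj 0 l (by omega) le_rfl h3
    omega
  · intro h3
    have := (h.adj 0 l (by omega) le_rfl).mp h3
    omega
  · rintro ⟨i, h3, h4, h5⟩
    have := h.inj 0 i (by omega) (by omega) h5
    omega
  · rintro ⟨i, h3, h4, h5⟩
    have := h.inj l i (by omega) (by omega) h5
    omega
  · rintro u hu x ⟨i, h3, h4, h5⟩ hux
    have hu' : u = v := hu
    exact hne i (by omega) (by rw [← hu', hux, h5])
  · rintro u hu x ⟨i, h3, h4, h5⟩ hux
    have hu' : u = v := hu
    rw [hu', h5] at hux
    exact h2 i h3 h4 hux
  · rintro x ⟨i, h3, h4, h5⟩ ⟨h6, h7⟩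
    rw [h5] at h6 h7
    have e1 := (h.adj 0 i (by omega) (by omega)).mp h6
    have e2 := (h.adj l i (by omega) (by omega)).mp h7
    omega
  · have e1 : (resG G ({v} ∪ {p 0, p l})).Reachable (p 0) v :=
      Adj.reachable ⟨h0.symm, Or.inr (Or.inl rfl), Or.inl rfl⟩
    have e2 : (resG G ({v} ∪ {p 0, p l})).Reachable v (p l) :=
      Adj.reachable ⟨h1, Or.inl rfl, Or.inr (Or.inr rfl)⟩
    exact e1.trans e2
  · exact key l le_rfl (by omega)

/-- No induced path of length at least three in `Z` with exactly its ends in `N`. -/
def StarC (G : SimpleGraph V) (Z N : Finset V) : Prop :=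
  ∀ (l : ℕ) (p : ℕ → V), 3 ≤ l → IP G l p → p 0 ∈ N → p l ∈ N →
    (∀ i, 0 < i → i < l → p i ∈ Z ∧ p i ∉ N) → False

/-- No induced path from `N` to `k` of length at least two. -/
lemma two_pair [DecidableEq V] [DecidableRel G.Adj] {Z N : Finset V} (hNZ : N ⊆ Z)
    (h4 : NoC4 G (Z : Set V)) (hst : StarC G Z N) {q k : V} (hqN : q ∈ N) (hsim : Simp G Z q)
    (hkZ : k ∈ Z) (hkN : k ∉ N) (hqk : G.Adj q k)
    (hmax : ∀ p ∈ Z, p ∉ N → G.Adj q p →
      (N.filter (fun x => G.Adj p x)).card ≤ (N.filter (fun x => G.Adj k x)).card)
    {m : ℕ} {u : ℕ → V} (hm : 2 ≤ m) (hu : IP G m u) (hu0 : u 0 ∈ N) (hum : u m = k)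
    (hin : ∀ i, 0 < i → i ≤ m → u i ∈ Z ∧ u i ∉ N) : False := by
  have hmemZ : ∀ i, i ≤ m → u i ∈ Z := by
    intro i hi
    rcases Nat.eq_zero_or_pos i with h | h
    · rw [h]
      exact hNZ hu0
    · exact (hin i h hi).1
  have hqu : ∀ i, i ≤ m → q ≠ u i := by
    intro i hi h
    rcases Nat.eq_zero_or_pos i with h0 | h0
    · have h1 := (hu.adj i m hi le_rfl).mp (by rw [← h, hum]; exact hqk)
      omega
    · exact (hin i h0 hi).2 (h ▸ hqN)
  have hqadj : ∀ i, i + 1 < m → ¬ G.Adj q (u i) := by
    intro i hi h
    have hne : u i ≠ k := by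
      rw [← hum]
      intro h1
      have := hu.inj i m (by omega) le_rfl h1
      omega
    have h1 := hsim (u i) (hmemZ i (by omega)) k hkZ h hqk hne
    rw [← hum] at h1
    have := (hu.adj i m (by omega) le_rfl).mp h1
    omega
  by_cases hlast : G.Adj q (u (m - 1))
  · rcases Nat.lt_or_ge 2 m with hm3 | hm2
    · have hP := (hu.take (m := m - 1) (by omega)).snoc (v := q)
        (fun i hi => hqu i (by omega)) (fun i hi => by
          constructor
          · intro h
            by_contra hne
            exact hqadj i (by omega) h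
          · intro h
            rw [h]
            exact hlast)
      refine hst (m - 1 + 1) _ (by omega) hP ?_ ?_ ?_
      · simp only [Nat.zero_le, if_true]
        exact hu0
      · have : ¬ (m - 1 + 1 ≤ m - 1) := by omega
        simp only [this, if_false]
        exact hqN
      · intro i h1 h2
        have : i ≤ m - 1 := by omega
        simp only [this, if_true]
        exact hin i h1 (by omega)
    · have hm' : m = 2 := by omega
      subst hm'
      have hp := hin 1 (by omega) (by omega)
      have hbp : G.Adj (u 0) (u 1) := (hu.adj 0 1 (by omega) (by omega)).mpr (Or.inl rfl)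
      have hpk : G.Adj (u 1) (u 2) := (hu.adj 1 2 (by omega) (by omega)).mpr (Or.inl rfl)
      have hbk : ¬ G.Adj (u 0) (u 2) := fun h => by
        have := (hu.adj 0 2 (by omega) (by omega)).mp h
        omega
      have hle := hmax (u 1) hp.1 hp.2 hlast
      have hex : ∃ b' ∈ N, G.Adj k b' ∧ ¬ G.Adj (u 1) b' := by
        by_contra hcon
        push Not at hcon
        have hss : N.filter (fun x => G.Adj k x) ⊂ N.filter (fun x => G.Adj (u 1) x) := by
          refine ⟨?_, fun h => ?_⟩
          · intro x hx
            obtain ⟨h1, h2⟩ := Finset.mem_filter.mp hx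
            exact Finset.mem_filter.mpr ⟨h1, hcon x h1 h2⟩
          · have h1 : u 0 ∈ N.filter (fun x => G.Adj (u 1) x) :=
              Finset.mem_filter.mpr ⟨hu0, hbp.symm⟩
            have h2 := (Finset.mem_filter.mp (h h1)).2
            rw [← hum] at h2
            exact hbk h2.symm
        have := Finset.card_lt_card hss
        omega
      obtain ⟨b', hb', hkb', hpb'⟩ := hex
      rw [← hum] at hkb' hkN hkZ
      have hbb' : u 0 ≠ b' := by
        rintro rfl
        exact hbk hkb'.symm
      have hpb : u 1 ≠ b' := by
        intro h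
        exact hp.2 (h ▸ hb')
      have hkb : u 2 ≠ b' := by
        intro h
        exact hkN (h ▸ hb')
      by_cases hadj : G.Adj (u 0) b'
      · rcases h4 (u 0) (u 1) (u 2) b' (hNZ hu0) hp.1 hkZ (hNZ hb') hbp hpk hkb' hadj.symm
          (fun h => by
            have := hu.inj 0 2 (by omega) (by omega) h
            omega) hpb with h | h
        · exact hbk h
        · exact hpb' h
      · have hP := hu.snoc (v := b') (fun i hi => by
            have : i = 0 ∨ i = 1 ∨ i = 2 := by omega
            rcases this with h | h | h <;> subst h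
            · exact hbb'.symm
            · exact hpb.symm
            · exact hkb.symm) (fun i hi => by
            have : i = 0 ∨ i = 1 ∨ i = 2 := by omega
            rcases this with h | h | h <;> subst h
            · constructor
              · intro h
                exact absurd h.symm hadj
              · omega
            · constructor
              · intro h
                exact absurd h.symm hpb'
              · omega
            · exact ⟨fun _ => rfl, fun _ => hkb'.symm⟩)
        refine hst (2 + 1) _ (by omega) hP ?_ ?_ ?_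
        · simp only [Nat.zero_le, if_true]
          exact hu0
        · simp only [show ¬ (2 + 1 ≤ 2) by omega, if_false]
          exact hb'
        · intro i h1 h2
          have : i ≤ 2 := by omega
          simp only [this, if_true]
          exact hin i h1 this
  · have hP := hu.snoc (v := q) hqu (fun i hi => by
      constructor
      · intro h
        by_contra hne
        rcases Nat.lt_or_ge (i + 1) m with h1 | h1
        · exact hqadj i h1 h
        · have : i = m - 1 := by omega
          rw [this] at h
          exact hlast h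
      · intro h
        rw [h, hum]
        exact hqk)
    refine hst (m + 1) _ (by omega) hP ?_ ?_ ?_
    · simp only [Nat.zero_le, if_true]
      exact hu0
    · simp only [show ¬ (m + 1 ≤ m) by omega, if_false]
      exact hqN
    · intro i h1 h2
      have : i ≤ m := by omega
      simp only [this, if_true]
      exact hin i h1 this

/-- Chordal graphs plus one vertex. `N` is the neighbourhood of the additional vertex. -/
theorem chord_col (hG : ∀ n : ℕ, 5 ≤ n → IsEmpty (cycleGraph n ↪g G)) {w : ℕ} (hw : 1 ≤ w) :
    ∀ (n : ℕ) (Z N : Finset V), Z.card ≤ n → N ⊆ Z → NoC4 G (Z : Set V) → StarC G Z N →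
      (∀ L : Finset V, L ⊆ Z → G.IsClique (L : Set V) → L.card ≤ w) →
      (∀ L : Finset V, L ⊆ N → G.IsClique (L : Set V) → L.card < w) →
      ∃ (C : V → Fin w) (c0 : Fin w), (∀ u ∈ Z, ∀ v ∈ Z, G.Adj u v → C u ≠ C v) ∧
        ∀ v ∈ N, C v ≠ c0 := by
  classical
  intro n
  induction n with
  | zero =>
    intro Z N hZ hNZ _ _ _ _
    have h0 : Z = ∅ := Finset.card_eq_zero.mp (by omega)
    refine ⟨fun _ => ⟨0, by omega⟩, ⟨0, by omega⟩, ?_, ?_⟩
    · intro u hu
      rw [h0] at hu
      simp at hu
    · intro v hv
      have := hNZ hv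
      rw [h0] at this
      simp at this
  | succ n ih =>
    intro Z N hZn hNZ h4 hst hZw hNw
    by_cases hne : Z.Nonempty
    swap
    · exact ih Z N (by
        rw [Finset.not_nonempty_iff_eq_empty.mp hne]
        simp) hNZ h4 hst hZw hNw
    obtain ⟨q, hq, hsim⟩ := exists_simp hG hne h4
    by_cases hk : q ∈ N ∧ ∃ k ∈ Z, k ∉ N ∧ G.Adj q k
    · -- identify the additional vertex with `k`
      obtain ⟨hqN, hk⟩ := hk
      obtain ⟨k, hkm, hmax⟩ := Finset.exists_max_image
        (Z.filter (fun k => k ∉ N ∧ G.Adj q k))
        (fun p => (N.filter (fun x => G.Adj p x)).card) (by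
          obtain ⟨k, h1, h2⟩ := hk
          exact ⟨k, Finset.mem_filter.mpr ⟨h1, h2⟩⟩)
      obtain ⟨hkZ, hkN, hqk⟩ := Finset.mem_filter.mp hkm
      have hmax' : ∀ p ∈ Z, p ∉ N → G.Adj q p →
          (N.filter (fun x => G.Adj p x)).card ≤ (N.filter (fun x => G.Adj k x)).card :=
        fun p h1 h2 h3 => hmax p (Finset.mem_filter.mpr ⟨h1, h2, h3⟩)
      have htp : ∀ (m : ℕ) (u : ℕ → V), 2 ≤ m → IP G m u → u 0 ∈ N → u m = k →
          (∀ i, 0 < i → i ≤ m → u i ∈ Z ∧ u i ∉ N) → False :=
        fun m u h1 h2 h3 h5 h6 => two_pair hNZ h4 hst hqN hsim hkZ hkN hqk hmax' h1 h2 h3 h5 h6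
      let N' : Finset V := N ∪ Z.filter (fun x => G.Adj k x)
      have hmN' : ∀ x, x ∈ N' ↔ (x ∈ N ∨ (x ∈ Z ∧ G.Adj k x)) := by
        intro x
        simp [N']
      have hN'Z : N' ⊆ Z.erase k := by
        intro x hx
        rcases (hmN' x).mp hx with h | h
        · exact Finset.mem_erase.mpr ⟨fun e => hkN (e ▸ h), hNZ h⟩
        · exact Finset.mem_erase.mpr ⟨h.2.ne.symm, h.1⟩
      have hZ'Z : Z.erase k ⊆ Z := Finset.erase_subset _ _
      have hst' : StarC G (Z.erase k) N' := by
        have main : ∀ (l : ℕ) (p : ℕ → V), 3 ≤ l → IP G l p → p 0 ∈ N → ¬ p l ∈ N →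
            G.Adj k (p l) → p l ∈ Z → ¬ G.Adj k (p 0) →
            (∀ i, 0 < i → i < l → p i ∈ Z ∧ p i ∉ N ∧ ¬ G.Adj k (p i) ∧ p i ≠ k) → False := by
          intro l p hl hp h0 h1 h2 h3 h5 h6
          have hkne : ∀ i, i ≤ l → k ≠ p i := by
            intro i hi h
            rcases Nat.eq_zero_or_pos i with h7 | h7
            · rw [h7] at h
              exact hkN (h ▸ h0)
            · rcases Nat.lt_or_ge i l with h8 | h8
              · exact (h6 i h7 h8).2.2.2 h.symm
              · have : i = l := le_antisymm hi h8
                rw [this] at h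
                exact G.loopless.irrefl k (by
                  conv at h2 => rw [← h]
                  exact h2)
          have hP := hp.snoc (v := k) hkne (fun i hi => by
            constructor
            · intro h
              by_contra hne
              rcases Nat.eq_zero_or_pos i with h7 | h7
              · rw [h7] at h
                exact h5 h
              · exact (h6 i h7 (by omega)).2.2.1 h
            · intro h
              rw [h]
              exact h2)
          refine htp (l + 1) _ (by omega) hP ?_ ?_ ?_
          · simp only [Nat.zero_le, if_true]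
            exact h0
          · simp only [show ¬ (l + 1 ≤ l) by omega, if_false]
          · intro i h7 h8
            by_cases h9 : i ≤ l
            · simp only [h9, if_true]
              rcases Nat.lt_or_ge i l with h10 | h10
              · exact ⟨(h6 i h7 h10).1, (h6 i h7 h10).2.1⟩
              · have : i = l := le_antisymm h9 h10
                rw [this]
                exact ⟨h3, h1⟩
            · simp only [h9, if_false]
              exact ⟨hkZ, hkN⟩
        intro l p hl hp h0 h1 hin
        have hin' : ∀ i, 0 < i → i < l → p i ∈ Z ∧ p i ∉ N ∧ ¬ G.Adj k (p i) ∧ p i ≠ k := by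
          intro i h2 h3
          obtain ⟨h5, h6⟩ := hin i h2 h3
          rw [Finset.mem_erase] at h5
          rw [hmN'] at h6
          push Not at h6
          exact ⟨h5.2, h6.1, h6.2 h5.2, h5.1⟩
        have hk0 : k ≠ p 0 := fun e => by
          have := hN'Z h0
          rw [← e] at this
          exact (Finset.mem_erase.mp this).1 rfl
        have hkl : k ≠ p l := fun e => by
          have := hN'Z h1
          rw [← e] at this
          exact (Finset.mem_erase.mp this).1 rfl
        have h0Z : p 0 ∈ Z := hZ'Z (hN'Z h0)
        have h1Z : p l ∈ Z := hZ'Z (hN'Z h1)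
        rw [hmN'] at h0 h1
        by_cases hA : G.Adj k (p 0) ∧ G.Adj k (p l)
        · refine hp.hole hG hl (v := k) ?_ hA.1 hA.2 (fun i h2 h3 => (hin' i h2 h3).2.2.1)
          intro i hi h
          rcases Nat.eq_zero_or_pos i with h7 | h7
          · rw [h7] at h
            exact hk0 h
          · rcases Nat.lt_or_ge i l with h8 | h8
            · exact (hin' i h7 h8).2.2.2 h.symm
            · have : i = l := le_antisymm hi h8
              rw [this] at h
              exact hkl h
        · by_cases hB : p 0 ∈ N ∧ p l ∈ N
          · exact hst l p hl hp hB.1 hB.2 (fun i h2 h3 => ⟨(hin' i h2 h3).1, (hin' i h2 h3).2.1⟩)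
          · by_cases hC : p 0 ∈ N
            · have hpl : p l ∉ N := fun h => hB ⟨hC, h⟩
              have hkl' : G.Adj k (p l) := (h1.resolve_left hpl).2
              exact main l p hl hp hC hpl hkl' h1Z (fun h => hA ⟨h, hkl'⟩) hin'
            · have hk0' : G.Adj k (p 0) := (h0.resolve_left hC).2
              have hkl' : ¬ G.Adj k (p l) := fun h => hA ⟨hk0', h⟩
              have hpl : p l ∈ N := by
                rcases h1 with h | h
                · exact h
                · exact absurd h.2 hkl'
              refine main l (fun i => p (l - i)) hl hp.rev ?_ ?_ ?_ ?_ ?_ ?_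
              · simpa using hpl
              · simpa using hC
              · simpa using hk0'
              · simpa using h0Z
              · simpa using hkl'
              · intro i h2 h3
                exact hin' (l - i) (by omega) (by omega)
      have hNw' : ∀ L : Finset V, L ⊆ N' → G.IsClique (L : Set V) → L.card < w := by
        intro L hL hLc
        by_cases hLN : L ⊆ N
        · exact hNw L hLN hLc
        · by_cases hLk : ∀ x ∈ L, G.Adj k x
          · have hkL : k ∉ L := fun h => G.loopless.irrefl k (hLk k h)
            have h1 := hZw (insert k L) (by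
              intro x hx
              rcases Finset.mem_insert.mp hx with h | h
              · rw [h]
                exact hkZ
              · exact hZ'Z (hN'Z (hL h))) (by
              rw [Finset.coe_insert]
              exact hLc.insert (fun b hb _ => hLk b (by exact_mod_cast hb)))
            rw [Finset.card_insert_of_notMem hkL] at h1
            omega
          · exfalso
            push Not at hLk
            obtain ⟨x, hx, hkx⟩ := hLk
            obtain ⟨y, hy, hyN⟩ := Finset.not_subset.mp hLN
            have hxN : x ∈ N := by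
              rcases (hmN' x).mp (hL hx) with h | h
              · exact h
              · exact absurd h.2 hkx
            have hky : G.Adj k y := by
              rcases (hmN' y).mp (hL hy) with h | h
              · exact absurd h hyN
              · exact h.2
            have hyZ : y ∈ Z := hZ'Z (hN'Z (hL hy))
            have hxy : x ≠ y := fun e => hyN (e ▸ hxN)
            have hxk : x ≠ k := fun e => hkN (e ▸ hxN)
            have hadj : G.Adj x y := hLc hx hy hxy
            have hI : IP G 2 (fun i => if i = 0 then x else if i = 1 then y else k) := by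
              refine ⟨fun i j hi hj => ?_, fun i j hi hj hij => ?_⟩
              · have h1 : i = 0 ∨ i = 1 ∨ i = 2 := by omega
                have h2 : j = 0 ∨ j = 1 ∨ j = 2 := by omega
                rcases h1 with h | h | h <;> rcases h2 with h' | h' | h' <;> subst h <;>
                  subst h' <;> simp [hadj, hadj.symm, hky, hky.symm, hkx, G.adj_comm x k]
              · have h1 : i = 0 ∨ i = 1 ∨ i = 2 := by omega
                have h2 : j = 0 ∨ j = 1 ∨ j = 2 := by omega
                rcases h1 with h | h | h <;> rcases h2 with h' | h' | h' <;> subst h <;>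
                  subst h' <;> simp [hxy, hxy.symm, hxk, hxk.symm, hky.ne, hky.ne.symm] at hij ⊢
            refine htp 2 _ le_rfl hI (by simpa using hxN) (by simp) ?_
            intro i h1 h2
            have h3 : i = 1 ∨ i = 2 := by omega
            rcases h3 with h | h <;> subst h
            · simpa using ⟨hyZ, hyN⟩
            · simpa using ⟨hkZ, hkN⟩
      obtain ⟨C, c0, hC, hc0⟩ := ih (Z.erase k) N' (by
        rw [Finset.card_erase_of_mem hkZ]
        omega) hN'Z (h4.mono (by exact_mod_cast hZ'Z)) hst'
        (fun L hL => hZw L (hL.trans hZ'Z)) hNw'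
      refine ⟨Function.update C k c0, c0, ?_, ?_⟩
      · intro a ha b hb hab
        by_cases hak : a = k
        · have hbk : b ≠ k := fun e => hab.ne (hak.trans e.symm)
          rw [hak, Function.update_self, Function.update_of_ne hbk]
          exact (hc0 b ((hmN' b).mpr (Or.inr ⟨hb, hak ▸ hab⟩))).symm
        · by_cases hbk : b = k
          · rw [hbk, Function.update_self, Function.update_of_ne hak]
            exact hc0 a ((hmN' a).mpr (Or.inr ⟨ha, hbk ▸ hab.symm⟩))
          · rw [Function.update_of_ne hak, Function.update_of_ne hbk]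
            exact hC a (Finset.mem_erase.mpr ⟨hak, ha⟩) b (Finset.mem_erase.mpr ⟨hbk, hb⟩) hab
      · intro v hv
        have hvk : v ≠ k := fun e => hkN (e ▸ hv)
        rw [Function.update_of_ne hvk]
        exact hc0 v ((hmN' v).mpr (Or.inl hv))
    · -- remove `q`
      have hZ'Z : Z.erase q ⊆ Z := Finset.erase_subset _ _
      have hN'N : N.erase q ⊆ N := Finset.erase_subset _ _
      have hNq : N.erase q ⊆ Z.erase q := Finset.erase_subset_erase q hNZ
      obtain ⟨C, c0, hC, hc0⟩ := ih (Z.erase q) (N.erase q) (by
        rw [Finset.card_erase_of_mem hq]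
        omega) hNq (h4.mono (by exact_mod_cast hZ'Z)) (by
          intro l p hl hp h0 h1 hin
          refine hst l p hl hp (hN'N h0) (hN'N h1) (fun i h2 h3 => ?_)
          obtain ⟨h5, h6⟩ := hin i h2 h3
          rw [Finset.mem_erase] at h5
          refine ⟨h5.2, fun h => h6 (Finset.mem_erase.mpr ⟨h5.1, h⟩)⟩)
        (fun L hL => hZw L (hL.trans hZ'Z)) (fun L hL => hNw L (hL.trans hN'N))
      let A : Finset V := Z.filter (fun x => G.Adj q x)
      have hA : ∀ x ∈ A, x ∈ Z ∧ G.Adj q x := fun x hx => Finset.mem_filter.mp hx
      have hqA : q ∉ A := fun h => G.loopless.irrefl q (hA q h).2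
      have hAc : G.IsClique ((insert q A : Finset V) : Set V) := by
        rw [Finset.coe_insert]
        refine IsClique.insert ?_ (fun b hb _ => (hA b (by exact_mod_cast hb)).2)
        intro x hx y hy hxy
        have hx' := hA x (by exact_mod_cast hx)
        have hy' := hA y (by exact_mod_cast hy)
        exact hsim x hx'.1 y hy'.1 hx'.2 hy'.2 hxy
      -- the forbidden colours
      obtain ⟨F, hF, hFA, hFN⟩ : ∃ F : Finset (Fin w), F.card < w ∧ (∀ x ∈ A, C x ∈ F) ∧
          (q ∈ N → c0 ∈ F) := by
        by_cases hqN : q ∈ N
        · have hAN : ∀ x ∈ A, x ∈ N := by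
            intro x hx
            by_contra hxN
            exact hk ⟨hqN, x, (hA x hx).1, hxN, (hA x hx).2⟩
          have h1 := hNw (insert q A) (by
            intro x hx
            rcases Finset.mem_insert.mp hx with h | h
            · rw [h]
              exact hqN
            · exact hAN x h) hAc
          rw [Finset.card_insert_of_notMem hqA] at h1
          refine ⟨insert c0 (A.image C), ?_, ?_, fun _ => Finset.mem_insert_self _ _⟩
          · have h2 := Finset.card_insert_le c0 (A.image C)
            have h3 := Finset.card_image_le (s := A) (f := C)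
            omega
          · intro x hx
            exact Finset.mem_insert_of_mem (Finset.mem_image_of_mem C hx)
        · have h1 := hZw (insert q A) (by
            intro x hx
            rcases Finset.mem_insert.mp hx with h | h
            · rw [h]
              exact hq
            · exact (hA x h).1) hAc
          rw [Finset.card_insert_of_notMem hqA] at h1
          refine ⟨A.image C, ?_, fun x hx => Finset.mem_image_of_mem C hx,
            fun h => absurd h hqN⟩
          have h3 := Finset.card_image_le (s := A) (f := C)
          omega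
      obtain ⟨c, hc⟩ : ∃ c : Fin w, c ∉ F := by
        by_contra hcon
        push Not at hcon
        have : F = Finset.univ := Finset.eq_univ_iff_forall.mpr hcon
        rw [this, Finset.card_univ, Fintype.card_fin] at hF
        omega
      refine ⟨Function.update C q c, c0, ?_, ?_⟩
      · intro a ha b hb hab
        by_cases haq : a = q
        · have hbq : b ≠ q := fun e => hab.ne (haq.trans e.symm)
          rw [haq, Function.update_self, Function.update_of_ne hbq]
          intro h
          exact hc (h ▸ hFA b (Finset.mem_filter.mpr ⟨hb, haq ▸ hab⟩))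
        · by_cases hbq : b = q
          · rw [hbq, Function.update_self, Function.update_of_ne haq]
            intro h
            exact hc (h ▸ hFA a (Finset.mem_filter.mpr ⟨ha, hbq ▸ hab.symm⟩))
          · rw [Function.update_of_ne haq, Function.update_of_ne hbq]
            exact hC a (Finset.mem_erase.mpr ⟨haq, ha⟩) b (Finset.mem_erase.mpr ⟨hbq, hb⟩) hab
      · intro v hv
        by_cases hvq : v = q
        · rw [hvq, Function.update_self]
          intro h
          exact hc (h ▸ hFN (hvq ▸ hv))
        · rw [Function.update_of_ne hvq]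
          exact hc0 v (Finset.mem_erase.mpr ⟨hvq, hv⟩)

/-- Colourability in the form used for pivots. -/
theorem chord_colorable [Fintype V] (hG : ∀ n : ℕ, 5 ≤ n → IsEmpty (cycleGraph n ↪g G)) {w : ℕ}
    (hw : 1 ≤ w) (hfree : G.CliqueFree (w + 1)) (Z : Set V) (h4 : NoC4 G Z) (s : V) :
    (G.induce (insert s Z)).Colorable w := by
  classical
  let Z' : Finset V := Finset.univ.filter (fun v => v ∈ Z ∧ v ≠ s)
  have hZ' : ∀ v, v ∈ Z' ↔ (v ∈ Z ∧ v ≠ s) := fun v => by simp [Z']
  let N : Finset V := Z'.filter (fun v => G.Adj s v)
  have hN : ∀ v, v ∈ N ↔ (v ∈ Z' ∧ G.Adj s v) := fun v => by simp [N]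
  have hcl : ∀ L : Finset V, G.IsClique (L : Set V) → L.card ≤ w := by
    intro L hL
    by_contra hcon
    push Not at hcon
    obtain ⟨K, hKL, hKc⟩ := Finset.exists_subset_card_eq (by omega : w + 1 ≤ L.card)
    exact hfree K ⟨hL.subset (by exact_mod_cast hKL), hKc⟩
  obtain ⟨C, c0, hC, hc0⟩ := chord_col hG hw _ Z' N le_rfl (Finset.filter_subset _ _)
    (h4.mono (fun v hv => ((hZ' v).mp (by exact_mod_cast hv)).1)) (by
      intro l p hl hp h0 h1 hin
      have h0' := (hN _).mp h0
      have h1' := (hN _).mp h1
      refine hp.hole hG hl (v := s) ?_ h0'.2 h1'.2 ?_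
      · intro i hi h
        rcases Nat.eq_zero_or_pos i with h7 | h7
        · rw [h7] at h
          exact ((hZ' _).mp h0'.1).2 h.symm
        · rcases Nat.lt_or_ge i l with h8 | h8
          · exact ((hZ' _).mp (hin i h7 h8).1).2 h.symm
          · have : i = l := le_antisymm hi h8
            rw [this] at h
            exact ((hZ' _).mp h1'.1).2 h.symm
      · intro i h2 h3 h5
        exact (hin i h2 h3).2 ((hN _).mpr ⟨(hin i h2 h3).1, h5⟩))
    (fun L _ hL => hcl L hL) (by
      intro L hLN hL
      have hsL : s ∉ L := fun h => ((hZ' s).mp ((hN s).mp (hLN h)).1).2 rfl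
      have h1 := hcl (insert s L) (by
        rw [Finset.coe_insert]
        exact hL.insert (fun b hb _ => ((hN b).mp (hLN (by exact_mod_cast hb))).2))
      rw [Finset.card_insert_of_notMem hsL] at h1
      omega)
  refine ⟨Coloring.mk (fun v => if v.1 = s then c0 else C v.1) ?_⟩
  rintro ⟨a, ha⟩ ⟨b, hb⟩ hab
  have hab' : G.Adj a b := hab
  have hmem : ∀ v, v ∈ insert s Z → v ≠ s → v ∈ Z' := by
    intro v hv hvs
    rcases hv with h | h
    · exact absurd h hvs
    · exact (hZ' v).mpr ⟨h, hvs⟩
  by_cases has : a = s
  · have hbs : b ≠ s := fun e => hab'.ne (has.trans e.symm)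
    simp only [has, hbs, if_true, if_false]
    exact (hc0 b ((hN b).mpr ⟨hmem b hb hbs, has ▸ hab'⟩)).symm
  · by_cases hbs : b = s
    · simp only [has, hbs, if_true, if_false]
      exact hc0 a ((hN a).mpr ⟨hmem a ha has, hbs ▸ hab'.symm⟩)
    · simp only [has, hbs, if_false]
      exact hC a (hmem a ha has) b (hmem b hb hbs) hab'

end Pool.Agent.LongHole
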