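import Mathlib

/-!
Colouring one level with few colours and no monochromatic large clique.
-/

set_option autoImplicit false

namespace Pool.Agent.LongHole

open SimpleGraph

variable {V : Type*}

/-- One step of a path inside `T` that avoids the common neighbours of `x` and `y`. -/
def Step (G : SimpleGraph V) (T : Finset V) (x y u v : V) : Prop :=
  G.Adj u v ∧ v ∈ T ∧ ¬ (G.Adj x v ∧ G.Adj y v)

/-- For distinct nonadjacent `x, y` in `P`, no path of `T` avoiding the common neighbours joins
a private neighbour of `x` to a private neighbour of `y`. -/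
def Sep (G : SimpleGraph V) (P T : Finset V) : Prop :=
  ∀ x ∈ P, ∀ y ∈ P, x ≠ y → ¬ G.Adj x y → ∀ a ∈ T, ∀ b ∈ T,
    G.Adj x a → ¬ G.Adj y a → G.Adj y b → ¬ G.Adj x b →
      ¬ Relation.ReflTransGen (Step G T x y) a b

lemma Sep.mono {G : SimpleGraph V} {P T P' T' : Finset V} (h : Sep G P T) (hP : P' ⊆ P)
    (hT : T' ⊆ T) : Sep G P' T' := by
  intro x hx y hy hxy hna a ha b hb h1 h2 h3 h4 h5
  have hstep : ∀ u v, Step G T' x y u v → Step G T x y u v := by
    intro u v huv
    exact ⟨huv.1, hT huv.2.1, huv.2.2⟩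
  have h6 : Relation.ReflTransGen (Step G T x y) a b := Relation.ReflTransGen.mono hstep a b h5
  exact h x (hP hx) y (hP hy) hxy hna a (hT ha) b (hT hb) h1 h2 h3 h4 h6

open Classical in
/-- The vertices of `T` that are not adjacent to `x`. -/
noncomputable def nonNbr (G : SimpleGraph V) (T : Finset V) (x : V) : Finset V :=
  T.filter (fun z => ¬ G.Adj x z)

lemma mem_nonNbr {G : SimpleGraph V} {T : Finset V} {x z : V} :
    z ∈ nonNbr G T x ↔ z ∈ T ∧ ¬ G.Adj x z := by
  classical
  simp [nonNbr]

lemma nonNbr_mono {G : SimpleGraph V} {T T' : Finset V} {x : V} (h : T' ⊆ T) :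
    nonNbr G T' x ⊆ nonNbr G T x := by
  intro z hz
  rw [mem_nonNbr] at hz ⊢
  exact ⟨h hz.1, hz.2⟩

/-- **Level theorem.** -/
theorem level_colouring (G : SimpleGraph V) (w : ℕ) :
    ∀ t m : ℕ, ∀ P T : Finset V, ∀ x ∈ P,
      (∀ z ∈ T, ∃ y ∈ P, G.Adj y z) → Sep G P T →
      (∀ K : Finset V, K ⊆ P → G.IsClique (K : Set V) → K.card ≤ t + 1) →
      (∀ y ∈ P, ∀ K : Finset V, K ⊆ T → (∀ k ∈ K, G.Adj y k) → G.IsClique (K : Set V) →
        K.card < w) →
      T.card + (nonNbr G T x).card = m →
      ∃ c : V → ℕ, (∀ z ∈ T, c z < t + 1) ∧ (∀ z ∈ T, G.Adj x z → c z = t) ∧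
        ∀ K : Finset V, K ⊆ T → G.IsClique (K : Set V) → (∀ a ∈ K, ∀ b ∈ K, c a = c b) →
          K.card < w := by
  classical
  intro t
  induction t using Nat.strong_induction_on with
  | _ t iht =>
  intro m
  induction m using Nat.strong_induction_on with
  | _ m ihm =>
  intro P T x hx hdom hsep hP hfree hm
  by_cases h1 : ∃ y ∈ P, y ≠ x ∧ ¬ G.Adj x y ∧ (∃ a ∈ T, G.Adj x a ∧ ¬ G.Adj y a) ∧
      (∃ b ∈ T, G.Adj y b ∧ ¬ G.Adj x b)
  · -- a crossing pair
    obtain ⟨y, hy, hyx, hna, ⟨a0, ha0T, ha0x, ha0y⟩, b0, hb0T, hb0y, hb0x⟩ := h1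
    set pA : V → Prop := fun z => G.Adj x z ∧ G.Adj y z with hpA
    set pR : V → Prop := fun z => ∃ a ∈ T, G.Adj x a ∧ ¬ G.Adj y a ∧
      Relation.ReflTransGen (Step G T x y) a z with hpR
    set T1 := T.filter (fun z => pA z ∨ pR z) with hT1
    set T2 := T.filter (fun z => pA z ∨ ¬ pR z) with hT2
    have hT1sub : T1 ⊆ T := Finset.filter_subset _ _
    have hT2sub : T2 ⊆ T := Finset.filter_subset _ _
    have hRb : ¬ pR b0 := by
      rintro ⟨a, haT, hax, hay, hab⟩
      exact hsep x hx y hy (Ne.symm hyx) hna a haT b0 hb0T hax hay hb0y hb0x hab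
    have hRa : pR a0 := ⟨a0, ha0T, ha0x, ha0y, Relation.ReflTransGen.refl⟩
    have hcard1 : T1.card < T.card := by
      apply Finset.card_lt_card
      refine ⟨hT1sub, fun h => ?_⟩
      have := h hb0T
      rw [hT1, Finset.mem_filter] at this
      rcases this.2 with h | h
      · exact hb0x h.1
      · exact hRb h
    have hcard2 : T2.card < T.card := by
      apply Finset.card_lt_card
      refine ⟨hT2sub, fun h => ?_⟩
      have := h ha0T
      rw [hT2, Finset.mem_filter] at this
      rcases this.2 with h | h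
      · exact ha0y h.2
      · exact h hRa
    have key : ∀ T' : Finset V, T' ⊆ T → T'.card < T.card →
        ∃ c : V → ℕ, (∀ z ∈ T', c z < t + 1) ∧ (∀ z ∈ T', G.Adj x z → c z = t) ∧
        ∀ K : Finset V, K ⊆ T' → G.IsClique (K : Set V) → (∀ a ∈ K, ∀ b ∈ K, c a = c b) →
          K.card < w := by
      intro T' hT' hcard
      have hle := Finset.card_le_card (nonNbr_mono (G := G) (x := x) hT')
      refine ihm (T'.card + (nonNbr G T' x).card) (by omega) P T' x hx
        (fun z hz => hdom z (hT' hz)) (hsep.mono (Finset.Subset.refl _) hT') hP ?_ rfl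
      intro y' hy' K hK hadj hcl
      exact hfree y' hy' K (hK.trans hT') hadj hcl
    obtain ⟨c1, hc1lt, hc1x, hc1K⟩ := key T1 hT1sub hcard1
    obtain ⟨c2, hc2lt, hc2x, hc2K⟩ := key T2 hT2sub hcard2
    have hmem1 : ∀ z, z ∈ T1 ↔ z ∈ T ∧ (pA z ∨ pR z) := fun z => by
      rw [hT1, Finset.mem_filter]
    have hmem2 : ∀ z, z ∈ T2 ↔ z ∈ T ∧ (pA z ∨ ¬ pR z) := fun z => by
      rw [hT2, Finset.mem_filter]
    refine ⟨fun z => if pR z then c1 z else c2 z, ?_, ?_, ?_⟩
    · intro z hz
      by_cases hR : pR z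
      · simp only [hR, if_true]
        exact hc1lt z ((hmem1 z).mpr ⟨hz, Or.inr hR⟩)
      · simp only [hR, if_false]
        exact hc2lt z ((hmem2 z).mpr ⟨hz, Or.inr hR⟩)
    · intro z hz hxz
      by_cases hR : pR z
      · simp only [hR, if_true]
        exact hc1x z ((hmem1 z).mpr ⟨hz, Or.inr hR⟩) hxz
      · simp only [hR, if_false]
        exact hc2x z ((hmem2 z).mpr ⟨hz, Or.inr hR⟩) hxz
    · intro K hK hcl hmono
      have hsplit : K ⊆ T1 ∨ K ⊆ T2 := by
        by_contra hcon
        push Not at hcon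
        obtain ⟨hn1, hn2⟩ := hcon
        rw [Finset.not_subset] at hn1 hn2
        obtain ⟨k1, hk1, hk1n⟩ := hn1
        obtain ⟨k2, hk2, hk2n⟩ := hn2
        rw [hmem1] at hk1n
        rw [hmem2] at hk2n
        have hk1T := hK hk1
        have hk2T := hK hk2
        have hk1A : ¬ pA k1 := fun h => hk1n ⟨hk1T, Or.inl h⟩
        have hk1R : ¬ pR k1 := fun h => hk1n ⟨hk1T, Or.inr h⟩
        have hk2R : pR k2 := by
          by_contra h
          exact hk2n ⟨hk2T, Or.inr h⟩
        have hne : k2 ≠ k1 := by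
          rintro rfl
          exact hk1R hk2R
        have hadj : G.Adj k2 k1 := hcl hk2 hk1 hne
        obtain ⟨a, haT, hax, hay, hab⟩ := hk2R
        exact hk1R ⟨a, haT, hax, hay, hab.tail ⟨hadj, hk1T, hk1A⟩⟩
      rcases hsplit with hs | hs
      · refine hc1K K hs hcl ?_
        have hcc : ∀ k ∈ K, (if pR k then c1 k else c2 k) = c1 k := by
          intro k hk
          by_cases hR : pR k
          · simp only [hR, if_true]
          · simp only [hR, if_false]
            have h1 := hs hk
            have h2 := (hmem1 k).mp h1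
            have hA : pA k := by
              rcases h2.2 with h | h
              · exact h
              · exact absurd h hR
            rw [hc1x k h1 hA.1, hc2x k ((hmem2 k).mpr ⟨h2.1, Or.inl hA⟩) hA.1]
        intro a ha b hb
        have := hmono a ha b hb
        simp only [hcc a ha, hcc b hb] at this
        exact this
      · refine hc2K K hs hcl ?_
        have hcc : ∀ k ∈ K, (if pR k then c1 k else c2 k) = c2 k := by
          intro k hk
          by_cases hR : pR k
          · simp only [hR, if_true]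
            have h1 := hs hk
            have h2 := (hmem2 k).mp h1
            have hA : pA k := by
              rcases h2.2 with h | h
              · exact h
              · exact absurd hR h
            rw [hc2x k h1 hA.1, hc1x k ((hmem1 k).mpr ⟨h2.1, Or.inl hA⟩) hA.1]
          · simp only [hR, if_false]
        intro a ha b hb
        have := hmono a ha b hb
        simp only [hcc a ha, hcc b hb] at this
        exact this
  by_cases h2 : ∃ y ∈ P, y ≠ x ∧ ¬ G.Adj x y ∧ (∃ b ∈ T, G.Adj y b ∧ ¬ G.Adj x b)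
  · -- a nonadjacent vertex with a larger neighbourhood
    obtain ⟨y, hy, hyx, hna, b0, hb0T, hb0y, hb0x⟩ := h2
    have hsub : ∀ a ∈ T, G.Adj x a → G.Adj y a := by
      intro a ha hxa
      by_contra hya
      exact h1 ⟨y, hy, hyx, hna, ⟨a, ha, hxa, hya⟩, b0, hb0T, hb0y, hb0x⟩
    have hcard : (nonNbr G T y).card < (nonNbr G T x).card := by
      apply Finset.card_lt_card
      refine ⟨?_, fun h => ?_⟩
      · intro z hz
        rw [mem_nonNbr] at hz ⊢
        exact ⟨hz.1, fun h => hz.2 (hsub z hz.1 h)⟩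
      · have := h (mem_nonNbr.mpr ⟨hb0T, hb0x⟩)
        exact (mem_nonNbr.mp this).2 hb0y
    obtain ⟨c, hc1, hc2, hc3⟩ := ihm (T.card + (nonNbr G T y).card) (by omega) P T y hy hdom
      hsep hP hfree rfl
    exact ⟨c, hc1, fun z hz hxz => hc2 z hz (hsub z hz hxz), hc3⟩
  -- all vertices not adjacent to `x` have smaller neighbourhoods
  have h3 : ∀ y ∈ P, y ≠ x → ¬ G.Adj x y → ∀ b ∈ T, G.Adj y b → G.Adj x b := by
    intro y hy hyx hna b hb hyb
    by_contra hxb
    exact h2 ⟨y, hy, hyx, hna, b, hb, hyb, hxb⟩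
  set T' := nonNbr G T x with hT'
  have hT'sub : T' ⊆ T := fun z hz => (mem_nonNbr.mp hz).1
  rcases T'.eq_empty_or_nonempty with hempty | ⟨z0, hz0⟩
  · refine ⟨fun _ => t, fun _ _ => Nat.lt_succ_self t, fun _ _ _ => rfl, ?_⟩
    intro K hK hcl _
    refine hfree x hx K hK ?_ hcl
    intro k hk
    by_contra hkx
    have : k ∈ T' := mem_nonNbr.mpr ⟨hK hk, hkx⟩
    rw [hempty] at this
    exact absurd this (Finset.notMem_empty _)
  · set P' := P.filter (fun y => G.Adj x y) with hP'
    have hdom' : ∀ z ∈ T', ∃ y ∈ P', G.Adj y z := by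
      intro z hz
      obtain ⟨hzT, hzx⟩ := mem_nonNbr.mp hz
      obtain ⟨y, hy, hyz⟩ := hdom z hzT
      refine ⟨y, ?_, hyz⟩
      rw [hP', Finset.mem_filter]
      refine ⟨hy, ?_⟩
      by_contra hxy
      have hyx : y ≠ x := by
        rintro rfl
        exact hzx hyz
      exact hzx (h3 y hy hyx hxy z hzT hyz)
    have hP'sub : P' ⊆ P := Finset.filter_subset _ _
    have hclq : ∀ K : Finset V, K ⊆ P' → G.IsClique (K : Set V) → K.card ≤ t := by
      intro K hK hcl
      have hxK : x ∉ K := by
        intro h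
        have := hK h
        rw [hP', Finset.mem_filter] at this
        exact G.loopless.irrefl _ this.2
      have := hP (insert x K) (by
        intro z hz
        rcases Finset.mem_insert.mp hz with h | h
        · rw [h]; exact hx
        · exact hP'sub (hK h)) (by
        rw [Finset.coe_insert]
        refine hcl.insert ?_
        intro b hb _
        have := hK hb
        rw [hP', Finset.mem_filter] at this
        exact this.2)
      rw [Finset.card_insert_of_notMem hxK] at this
      omega
    obtain ⟨y0, hy0, hy0z⟩ := hdom' z0 hz0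
    have ht1 : 1 ≤ t := by
      have := hclq {y0} (by
        intro z hz
        rw [Finset.mem_singleton] at hz
        rw [hz]; exact hy0) (by simp)
      simpa using this
    obtain ⟨t', rfl⟩ : ∃ t', t = t' + 1 := ⟨t - 1, by omega⟩
    obtain ⟨c, hc1, hc2, hc3⟩ := iht t' (by omega) _ P' T' y0 hy0 hdom'
      (hsep.mono hP'sub hT'sub) hclq
      (fun y hy K hK hadj hcl => hfree y (hP'sub hy) K (hK.trans hT'sub) hadj hcl) rfl
    refine ⟨fun z => if G.Adj x z then t' + 1 else c z, ?_, ?_, ?_⟩
    · intro z hz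
      by_cases hxz : G.Adj x z
      · simp only [hxz, if_true]; omega
      · simp only [hxz, if_false]
        have := hc1 z (mem_nonNbr.mpr ⟨hz, hxz⟩)
        omega
    · intro z hz hxz
      simp only [hxz, if_true]
    · intro K hK hcl hmono
      by_cases hex : ∃ k ∈ K, G.Adj x k
      · obtain ⟨k, hk, hxk⟩ := hex
        refine hfree x hx K hK ?_ hcl
        intro k' hk'
        by_contra hxk'
        have := hmono k hk k' hk'
        simp only [hxk, hxk', if_true, if_false] at this
        have h5 := hc1 k' (mem_nonNbr.mpr ⟨hK hk', hxk'⟩)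
        omega
      · push Not at hex
        refine hc3 K (fun k hk => mem_nonNbr.mpr ⟨hK hk, hex k hk⟩) hcl ?_
        intro a ha b hb
        have := hmono a ha b hb
        simp only [hex a ha, hex b hb, if_false] at this
        exact this

end Pool.Agent.LongHole
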