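import Mathlib
import Pool.Agent.LongHole.Basic
import Pool.Agent.LongHole.Level

/-!
Breadth first levels: `2 w` parts without a clique of size `w`.
-/

set_option autoImplicit false

namespace Pool.Agent.LongHole

open SimpleGraph

variable {V : Type*}

lemma dist_adj_le (G : SimpleGraph V) (r u v : V) (h : G.Adj u v) :
    G.dist r v ≤ G.dist r u + 1 := by
  have h1 := h.reachable.dist_triangle_right r
  have h2 : G.dist u v = 1 := dist_eq_one_iff_adj.mpr h
  omega

lemma reach_level (G : SimpleGraph V) (r : V) : ∀ n : ℕ, ∀ v : V, G.Reachable r v →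
    G.dist r v = n → ∀ W : Set V, (∀ u, G.Reachable r u → G.dist r u < n → u ∈ W) → v ∈ W →
      (resG G W).Reachable r v := by
  intro n
  induction n with
  | zero =>
    intro v hv hd W _ _
    have := hv.dist_eq_zero_iff.mp hd
    rw [this]
  | succ n ih =>
    intro v hv hd W hW hvW
    obtain ⟨p, hp⟩ := hv.exists_walk_length_eq_dist
    have hadj : G.Adj (p.getVert n) (p.getVert (n + 1)) := p.adj_getVert_succ (by omega)
    have hend : p.getVert (n + 1) = v := by
      have : n + 1 = p.length := by omega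
      rw [this]; exact p.getVert_length
    rw [hend] at hadj
    have hru : G.Reachable r (p.getVert n) := ⟨p.take n⟩
    have hle : G.dist r (p.getVert n) ≤ n := by
      refine (G.dist_le (p.take n)).trans ?_
      rw [Walk.take_length]
      exact min_le_left _ _
    have hge := dist_adj_le G r _ _ hadj
    have hdu : G.dist r (p.getVert n) = n := by omega
    have huW : p.getVert n ∈ W := hW _ hru (by omega)
    have h1 := ih (p.getVert n) hru hdu W (fun u hu hlt => hW u hu (by omega)) huW
    have h2 : (resG G W).Adj (p.getVert n) v := ⟨hadj, huW, hvW⟩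
    exact h1.trans h2.reachable

open Classical in
/-- The level at distance `i` from `r`. -/
noncomputable def lev [Fintype V] (G : SimpleGraph V) (r : V) (i : ℕ) : Finset V :=
  Finset.univ.filter (fun v => G.Reachable r v ∧ G.dist r v = i)

lemma mem_lev [Fintype V] {G : SimpleGraph V} {r : V} {i : ℕ} {v : V} :
    v ∈ lev G r i ↔ G.Reachable r v ∧ G.dist r v = i := by
  classical
  simp [lev]

lemma sep_lev [Fintype V] (G : SimpleGraph V)
    (hG : ∀ n : ℕ, 5 ≤ n → IsEmpty (cycleGraph n ↪g G)) (r : V) (j : ℕ) :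
    Sep G (lev G r j) (lev G r (j + 1)) := by
  intro x hx y hy hxy hna a ha b hb hxa hya hyb hxb hab
  obtain ⟨hrx, hdx⟩ := mem_lev.mp hx
  obtain ⟨hry, hdy⟩ := mem_lev.mp hy
  set W1 : Set V := {v | G.Reachable r v ∧ G.dist r v < j} with hW1
  set W2 : Set V := {v | v ∈ lev G r (j + 1) ∧ ¬ (G.Adj x v ∧ G.Adj y v)} with hW2
  refine two_path G hG x y W1 W2 hxy hna ?_ ?_ ?_ ?_ ?_ ?_ ?_
  · intro h
    have := (mem_lev.mp h.1).2
    omega
  · intro h
    have := (mem_lev.mp h.1).2
    omega
  · rintro u hu v hv rfl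
    have h1 := (mem_lev.mp hv.1).2
    have h2 := hu.2
    omega
  · intro u hu v hv h
    have h1 := (mem_lev.mp hv.1).2
    have h2 := hu.2
    have h3 := dist_adj_le G r u v h
    omega
  · intro v hv
    exact hv.2
  · have h1 := reach_level G r j x hrx hdx (W1 ∪ {x, y})
      (fun u hu hlt => Or.inl ⟨hu, hlt⟩) (Or.inr (Or.inl rfl))
    have h2 := reach_level G r j y hry hdy (W1 ∪ {x, y})
      (fun u hu hlt => Or.inl ⟨hu, hlt⟩) (Or.inr (Or.inr rfl))
    exact h1.symm.trans h2
  · have hxm : x ∈ (W2 ∪ {x, y} : Set V) := Or.inr (Or.inl rfl)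
    have hym : y ∈ (W2 ∪ {x, y} : Set V) := Or.inr (Or.inr rfl)
    have ham : a ∈ (W2 ∪ {x, y} : Set V) := Or.inl ⟨ha, fun h => hya h.2⟩
    have hbm : b ∈ (W2 ∪ {x, y} : Set V) := Or.inl ⟨hb, fun h => hxb h.1⟩
    have h1 : (resG G (W2 ∪ {x, y})).Adj x a := ⟨hxa, hxm, ham⟩
    have h2 : (resG G (W2 ∪ {x, y})).Adj y b := ⟨hyb, hym, hbm⟩
    have h3 : ∀ z, Relation.ReflTransGen (Step G (lev G r (j + 1)) x y) a z →
        z ∈ (W2 ∪ {x, y} : Set V) ∧ (resG G (W2 ∪ {x, y})).Reachable a z := by
      intro z hz
      induction hz with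
      | refl => exact ⟨ham, Reachable.refl _⟩
      | tail _ hstep ih =>
        have hm : _ ∈ (W2 ∪ {x, y} : Set V) := Or.inl ⟨hstep.2.1, hstep.2.2⟩
        have hadj : (resG G (W2 ∪ {x, y})).Adj _ _ := ⟨hstep.1, ih.1, hm⟩
        exact ⟨hm, ih.2.trans hadj.reachable⟩
    exact h1.reachable.trans ((h3 b hab).2.trans h2.symm.reachable)

lemma lev_colouring [Fintype V] (G : SimpleGraph V)
    (hG : ∀ n : ℕ, 5 ≤ n → IsEmpty (cycleGraph n ↪g G)) (w : ℕ) (hw : 1 ≤ w)
    (hcl : ∀ K : Finset V, G.IsClique (K : Set V) → K.card ≤ w) (r : V) (j : ℕ) :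
    ∃ c : V → ℕ, (∀ z ∈ lev G r (j + 1), c z < w) ∧
      ∀ K : Finset V, K ⊆ lev G r (j + 1) → G.IsClique (K : Set V) →
        (∀ a ∈ K, ∀ b ∈ K, c a = c b) → K.card < w := by
  classical
  have hdom : ∀ z ∈ lev G r (j + 1), ∃ y ∈ lev G r j, G.Adj y z := by
    intro z hz
    obtain ⟨hrz, hdz⟩ := mem_lev.mp hz
    obtain ⟨p, hp⟩ := hrz.exists_walk_length_eq_dist
    have hadj : G.Adj (p.getVert j) (p.getVert (j + 1)) := p.adj_getVert_succ (by omega)
    have hend : p.getVert (j + 1) = z := by
      have : j + 1 = p.length := by omega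
      rw [this]; exact p.getVert_length
    rw [hend] at hadj
    have hru : G.Reachable r (p.getVert j) := ⟨p.take j⟩
    have hle : G.dist r (p.getVert j) ≤ j := by
      refine (G.dist_le (p.take j)).trans ?_
      rw [Walk.take_length]
      exact min_le_left _ _
    have hge := dist_adj_le G r _ _ hadj
    exact ⟨p.getVert j, mem_lev.mpr ⟨hru, by omega⟩, hadj⟩
  rcases (lev G r (j + 1)).eq_empty_or_nonempty with hempty | ⟨z0, hz0⟩
  · refine ⟨fun _ => 0, fun _ _ => hw, ?_⟩
    intro K hK _ _
    rw [hempty, Finset.subset_empty] at hK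
    rw [hK, Finset.card_empty]
    exact hw
  · obtain ⟨x, hx, -⟩ := hdom z0 hz0
    obtain ⟨t, rfl⟩ : ∃ t, w = t + 1 := ⟨w - 1, by omega⟩
    obtain ⟨c, h1, -, h3⟩ := level_colouring G (t + 1) t _ (lev G r j) (lev G r (j + 1)) x hx
      hdom (sep_lev G hG r j) (fun K _ hK => hcl K hK) (by
        intro y hy K hK hadj hKcl
        have hyK : y ∉ K := fun h => G.loopless.irrefl _ (hadj y h)
        have := hcl (insert y K) (by
          rw [Finset.coe_insert]
          exact hKcl.insert (fun b hb _ => hadj b hb))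
        rw [Finset.card_insert_of_notMem hyK] at this
        omega) rfl
    exact ⟨c, h1, h3⟩

/-- A graph without induced cycles of length at least five whose cliques have at most `w ≥ 2`
vertices splits into `2 w` parts without a clique of size `w`. -/
theorem exists_parts [Fintype V] (G : SimpleGraph V)
    (hG : ∀ n : ℕ, 5 ≤ n → IsEmpty (cycleGraph n ↪g G)) (w : ℕ) (hw : 2 ≤ w)
    (hcl : ∀ K : Finset V, G.IsClique (K : Set V) → K.card ≤ w) :
    ∃ c : V → Fin (2 * w), ∀ K : Finset V, G.IsClique (K : Set V) →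
      (∀ a ∈ K, ∀ b ∈ K, c a = c b) → K.card < w := by
  classical
  choose c hc1 hc2 using fun (r : V) (j : ℕ) => lev_colouring G hG w (by omega) hcl r j
  let root : V → V := fun v => (Quot.out (G.connectedComponentMk v) : V)
  have hroot : ∀ v, G.Reachable (root v) v := by
    intro v
    exact ConnectedComponent.exact (Quot.out_eq (G.connectedComponentMk v))
  have hrootadj : ∀ u v, G.Adj u v → root u = root v := by
    intro u v h
    have : G.connectedComponentMk u = G.connectedComponentMk v :=
      ConnectedComponent.sound h.reachable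
    simp only [root, this]
  let cc : V → ℕ := fun v => if G.dist (root v) v = 0 then 0 else
    c (root v) (G.dist (root v) v - 1) v
  have hcc : ∀ v, cc v < w := by
    intro v
    by_cases h0 : G.dist (root v) v = 0
    · simp only [cc, h0, if_true]; omega
    · simp only [cc, h0, if_false]
      apply hc1
      rw [mem_lev]
      exact ⟨hroot v, by omega⟩
  refine ⟨fun v => ⟨2 * cc v + G.dist (root v) v % 2, ?_⟩, ?_⟩
  · have := hcc v
    omega
  · intro K hK hmono
    by_contra hcon
    have hKcard : 2 ≤ K.card := by omega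
    have hKne : K.Nonempty := by
      rw [← Finset.card_pos]; omega
    obtain ⟨v0, hv0⟩ := hKne
    have hsame : ∀ v ∈ K, root v = root v0 ∧ G.dist (root v0) v = G.dist (root v0) v0 ∧
        cc v = cc v0 := by
      intro v hv
      have hr : root v = root v0 := by
        by_cases h : v = v0
        · rw [h]
        · exact hrootadj v v0 (hK hv hv0 h)
      have hm := hmono v hv v0 hv0
      rw [Fin.mk.injEq, hr] at hm
      have hcl1 : G.dist (root v0) v ≤ G.dist (root v0) v0 + 1 ∧
          G.dist (root v0) v0 ≤ G.dist (root v0) v + 1 := by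
        by_cases h : v = v0
        · rw [h]; omega
        · have hadj := hK hv hv0 h
          exact ⟨dist_adj_le G _ _ _ hadj.symm, dist_adj_le G _ _ _ hadj⟩
      refine ⟨hr, by omega, by omega⟩
    rcases Nat.eq_zero_or_pos (G.dist (root v0) v0) with h0 | h0
    · have : K ⊆ {root v0} := by
        intro v hv
        obtain ⟨hr, hd, -⟩ := hsame v hv
        have hreach := hroot v
        rw [hr] at hreach
        rw [Finset.mem_singleton]
        exact (hreach.dist_eq_zero_iff.mp (by omega)).symm
      have := Finset.card_le_card this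
      rw [Finset.card_singleton] at this
      omega
    · obtain ⟨j, hj⟩ : ∃ j, G.dist (root v0) v0 = j + 1 := ⟨G.dist (root v0) v0 - 1, by omega⟩
      have hcv : ∀ v ∈ K, cc v = c (root v0) j v := by
        intro v hv
        obtain ⟨hr, hd, -⟩ := hsame v hv
        have h1 : G.dist (root v) v = j + 1 := by rw [hr]; omega
        have h2 : ¬ (G.dist (root v) v = 0) := by omega
        simp only [cc, h2, if_false]
        rw [hr, hd, hj]
        rfl
      have := hc2 (root v0) j K (by
        intro v hv
        obtain ⟨hr, hd, -⟩ := hsame v hv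
        have hreach := hroot v
        rw [hr] at hreach
        exact mem_lev.mpr ⟨hreach, by omega⟩) hK (by
        intro a ha b hb
        rw [← hcv a ha, ← hcv b hb, (hsame a ha).2.2, (hsame b hb).2.2])
      exact hcon this

end Pool.Agent.LongHole
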