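import Mathlib
import Pool.Agent.LongHole.Parts

/-!
The bound for the chromatic number.
-/

set_option autoImplicit false

namespace Pool.Agent.LongHole

open SimpleGraph

universe u

theorem colorable_bound (w : ℕ) : ∀ (V : Type u) [Fintype V] (G : SimpleGraph V),
    (∀ n : ℕ, 5 ≤ n → IsEmpty (cycleGraph n ↪g G)) →
    (∀ K : Finset V, G.IsClique (K : Set V) → K.card ≤ w + 1) →
    G.Colorable (2 ^ w * (w + 1).factorial) := by
  classical
  induction w with
  | zero =>
    intro V _ G _ hcl
    have hno : ∀ u v, ¬ G.Adj u v := by
      intro u v h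
      have := hcl {u, v} (by
        rw [Finset.coe_pair]
        exact isClique_pair.mpr fun _ => h)
      rw [Finset.card_pair h.ne] at this
      omega
    have C : G.Coloring (Fin 1) := Coloring.mk (fun _ => 0) (fun {u v} h => absurd h (hno u v))
    have := C.colorable
    simpa using this
  | succ w ih =>
    intro V _ G hG hcl
    obtain ⟨c, hc⟩ := exists_parts G hG (w + 2) (by omega) hcl
    have hpart : ∀ i : Fin (2 * (w + 2)),
        (G.induce {v | c v = i}).Colorable (2 ^ w * (w + 1).factorial) := by
      intro i
      apply ih
      · intro n hn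
        refine ⟨fun e => (hG n hn).false ?_⟩
        exact e.trans (Embedding.induce _)
      · intro K hK
        have h1 : G.IsClique ((K.map ⟨Subtype.val, Subtype.val_injective⟩ : Finset V) : Set V) := by
          intro a ha b hb hab
          simp only [Finset.coe_map, Function.Embedding.coeFn_mk, Set.mem_image,
            Finset.mem_coe] at ha hb
          obtain ⟨a', ha', rfl⟩ := ha
          obtain ⟨b', hb', rfl⟩ := hb
          exact hK ha' hb' (fun h => hab (by rw [h]))
        have h2 := hc _ h1 (by
          intro a ha b hb
          simp only [Finset.mem_map, Function.Embedding.coeFn_mk] at ha hb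
          obtain ⟨a', _, rfl⟩ := ha
          obtain ⟨b', _, rfl⟩ := hb
          have e1 : c a'.1 = i := a'.2
          have e2 : c b'.1 = i := b'.2
          rw [e1, e2])
        rw [Finset.card_map] at h2
        omega
    let f := fun i => (hpart i).some
    let g : V → Fin (2 ^ w * (w + 1).factorial) := fun v => f (c v) ⟨v, rfl⟩
    have hg : ∀ i v (h : c v = i), g v = f i ⟨v, h⟩ := by
      intro i v h
      subst h
      rfl
    have C : G.Coloring (Fin (2 * (w + 2)) × Fin (2 ^ w * (w + 1).factorial)) :=
      Coloring.mk (fun v => (c v, g v)) (by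
        intro u v huv heq
        rw [Prod.mk.injEq] at heq
        obtain ⟨h1, h2⟩ := heq
        rw [hg (c v) u h1, hg (c v) v rfl] at h2
        exact (f (c v)).valid (v := ⟨u, h1⟩) (w := ⟨v, rfl⟩) huv h2)
    have hC := C.colorable
    rw [Fintype.card_prod, Fintype.card_fin, Fintype.card_fin] at hC
    have hval : 2 ^ (w + 1) * (w + 1 + 1).factorial =
        2 * (w + 2) * (2 ^ w * (w + 1).factorial) := by
      rw [Nat.factorial_succ (w + 1), pow_succ]
      ring
    rw [hval]
    exact hC

end Pool.Agent.LongHole
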