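import Mathlib
import Pool.Agent.LongHole.Pivot

/-!
Partitions from descending pivots.
-/

set_option autoImplicit false

namespace Pool.Agent.LongHole

open SimpleGraph

variable {V : Type*} {G : SimpleGraph V}

/-- Partition with `N(q)` on one side, from two anticomplete pieces of the rest. -/
theorem two_pieces [Fintype V] [DecidableEq V]
    (hG : ∀ n : ℕ, 5 ≤ n → IsEmpty (cycleGraph n ↪g G))
    {w : ℕ} (hw : 2 ≤ w) (hfree : G.CliqueFree (w + 1)) {q r : V} (hqr : G.Adj q r)
    (Z1 Z2 : Finset V) (hZ1 : ∀ z ∈ Z1, z ≠ q ∧ ¬ G.Adj q z) (hZ2 : ∀ z ∈ Z2, z ≠ q ∧ ¬ G.Adj q z)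
    (hanti : ∀ u ∈ Z1, ∀ v ∈ Z2, ¬ G.Adj u v)
    (hc1 : ∀ x, G.Adj q x → (G.induce (insert x (Z1 : Set V))).Colorable w)
    (hc2 : ∀ x, G.Adj q x → (G.induce (insert x (Z2 : Set V))).Colorable w)
    (hcov : ∀ Q : Finset V, G.IsClique (Q : Set V) → Q.card = w →
      (∀ z ∈ Q, z ≠ q ∧ ¬ G.Adj q z) → Q ⊆ Z1 ∨ Q ⊆ Z2) :
    ∃ A : Finset V, (∀ x, G.Adj q x → x ∈ A) ∧ q ∉ A ∧
      ∀ Q : Finset V, G.IsClique (Q : Set V) → Q.card = w → ¬ Q ⊆ A ∧ ¬ Q ⊆ Aᶜ := by
  classical
  obtain ⟨W1, a1, b1, c1, d1, e1⟩ := pivot hG hw hfree _ Z1 r le_rfl hZ1 hqr hc1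
  obtain ⟨W2, a2, b2, c2, d2, e2⟩ := pivot hG hw hfree _ Z2 r le_rfl hZ2 hqr hc2
  refine ⟨Finset.univ.filter (fun v => G.Adj q v ∨ v ∈ W1 ∨ v ∈ W2), ?_, ?_, ?_⟩
  · intro x hx
    exact Finset.mem_filter.mpr ⟨Finset.mem_univ _, Or.inl hx⟩
  · intro h
    rcases (Finset.mem_filter.mp h).2 with h | h | h
    · exact G.loopless.irrefl q h
    · exact (hZ1 q (a1 h)).1 rfl
    · exact (hZ2 q (a2 h)).1 rfl
  · intro Q hQ hcard
    constructor
    · intro hsub
      have hmem : ∀ x ∈ Q, G.Adj q x ∨ x ∈ W1 ∨ x ∈ W2 := fun x hx =>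
        (Finset.mem_filter.mp (hsub hx)).2
      by_cases hall : ∀ x ∈ Q, G.Adj q x
      · have hqQ : q ∉ Q := fun h => G.loopless.irrefl q (hall q h)
        refine hfree (insert q Q) ⟨?_, ?_⟩
        · rw [Finset.coe_insert]
          exact hQ.insert (fun b hb _ => hall b (by exact_mod_cast hb))
        · rw [Finset.card_insert_of_notMem hqQ, hcard]
      · push Not at hall
        obtain ⟨v, hv, hqv⟩ := hall
        have hvW : v ∈ W1 ∨ v ∈ W2 := (hmem v hv).resolve_left hqv
        have hstab : ∀ u, (u ∈ W1 ∨ u ∈ W2) → ¬ G.Adj v u := by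
          intro u hu hvu
          rcases hvW with h | h <;> rcases hu with h' | h'
          · exact d1 v h u h' hvu
          · exact hanti v (a1 h) u (a2 h') hvu
          · exact hanti u (a1 h') v (a2 h) hvu.symm
          · exact d2 v h u h' hvu
        have hoth : ∀ k ∈ Q.erase v, G.Adj q k := by
          intro k hk
          rw [Finset.mem_erase] at hk
          by_contra hqk
          exact hstab k ((hmem k hk.2).resolve_left hqk) (hQ hv hk.2 (Ne.symm hk.1))
        have hcl : G.IsClique ((Q.erase v : Finset V) : Set V) := by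
          refine hQ.subset ?_
          intro x hx
          have hx' : x ∈ Q.erase v := by exact_mod_cast hx
          exact_mod_cast (Finset.mem_erase.mp hx').2
        have hce : (Q.erase v).card = w - 1 := by
          rw [Finset.card_erase_of_mem hv, hcard]
        have hnt : NotTight G q w v := by
          rcases hvW with h | h
          · exact c1 v h
          · exact c2 v h
        obtain ⟨k, hk, hvk⟩ := hnt _ hoth hcl hce
        rw [Finset.mem_erase] at hk
        exact hvk (hQ hv hk.2 (Ne.symm hk.1))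
    · intro hsub
      have hno : ∀ x ∈ Q, ¬ G.Adj q x ∧ x ∉ W1 ∧ x ∉ W2 := by
        intro x hx
        have := hsub hx
        rw [Finset.mem_compl, Finset.mem_filter] at this
        refine ⟨fun h => this ⟨Finset.mem_univ _, Or.inl h⟩,
          fun h => this ⟨Finset.mem_univ _, Or.inr (Or.inl h)⟩,
          fun h => this ⟨Finset.mem_univ _, Or.inr (Or.inr h)⟩⟩
      have hqQ : q ∉ Q := by
        intro hq
        obtain ⟨k, hk, hkq⟩ := Finset.exists_mem_ne (by omega : 1 < Q.card) q
        exact (hno k hk).1 (hQ hq hk hkq.symm)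
      rcases hcov Q hQ hcard (fun z hz => ⟨fun e => hqQ (e ▸ hz), (hno z hz).1⟩) with h | h
      · obtain ⟨v, hv, hvW⟩ := e1 Q h hQ hcard
        exact (hno v hv).2.1 hvW
      · obtain ⟨v, hv, hvW⟩ := e2 Q h hQ hcard
        exact (hno v hv).2.2 hvW

/-- The union of the cliques of size `w` which contain no vertex of `B` and no neighbour of a
vertex of `B`. -/
def remote (G : SimpleGraph V) (w : ℕ) (B : Set V) : Set V :=
  {v | ∃ Q : Finset V, G.IsNClique w Q ∧ v ∈ Q ∧ ∀ u ∈ Q, ∀ b ∈ B, u ≠ b ∧ ¬ G.Adj b u}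

/-- The rooted form. -/
theorem rooted [Fintype V] [DecidableEq V]
    (hG : ∀ n : ℕ, 5 ≤ n → IsEmpty (cycleGraph n ↪g G))
    {w : ℕ} (hw : 2 ≤ w) (hfree : G.CliqueFree (w + 1)) {r : V} (hr : ∃ s, G.Adj r s)
    (hc : ∀ s, G.Adj r s → (G.induce (insert s (remote G w {r}))).Colorable w) :
    ∃ A : Finset V, (∀ x, G.Adj r x → x ∈ A) ∧ r ∉ A ∧
      ∀ Q : Finset V, G.IsClique (Q : Set V) → Q.card = w → ¬ Q ⊆ A ∧ ¬ Q ⊆ Aᶜ := by
  classical
  obtain ⟨s, hs⟩ := hr
  have hmem : ∀ z, z ∈ (Finset.univ.filter (fun v => v ∈ remote G w {r})) ↔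
      z ∈ remote G w {r} := by
    intro z
    simp
  refine two_pieces hG hw hfree hs (Finset.univ.filter (fun v => v ∈ remote G w {r})) ∅
    ?_ (by simp) (by simp) ?_ ?_ ?_
  · intro z hz
    obtain ⟨Q, _, hzQ, hQ⟩ := (hmem z).mp hz
    exact hQ z hzQ r rfl
  · intro x hx
    have h := hc x hx
    have he : (insert x ((Finset.univ.filter (fun v => v ∈ remote G w {r}) : Finset V) : Set V))
        = insert x (remote G w {r}) := by
      ext v
      simp
    rw [he]
    exact h
  · intro x hx
    have h := hc x hx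
    refine h.of_hom (induceHomOfLE G ?_).toHom
    apply Set.insert_subset_insert
    simp
  · intro Q hQ hcard h
    refine Or.inl (fun z hz => (hmem z).mpr ⟨Q, ⟨hQ, hcard⟩, hz, fun u hu b hb => ?_⟩)
    have hb' : b = r := hb
    rw [hb']
    exact h u hu

/-- Long holes of the restriction. -/
lemma resG_nohole (hG : ∀ n : ℕ, 5 ≤ n → IsEmpty (cycleGraph n ↪g G)) (U : Set V) :
    ∀ n : ℕ, 5 ≤ n → IsEmpty (cycleGraph n ↪g resG G U) := by
  intro n hn
  refine ⟨fun f => ?_⟩
  have hU : ∀ i : Fin n, f i ∈ U := by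
    intro i
    have hex : ∃ j : Fin n, (cycleGraph n).Adj i j := by
      rcases Nat.lt_or_ge (i.val + 1) n with h | h
      · exact ⟨⟨i.val + 1, h⟩, (cycleGraph_adj_val (by omega) _ _).mpr (Or.inl rfl)⟩
      · refine ⟨⟨0, by omega⟩, (cycleGraph_adj_val (by omega) _ _).mpr ?_⟩
        have := i.isLt
        exact Or.inr (Or.inr (Or.inr ⟨rfl, by omega⟩))
    obtain ⟨j, hj⟩ := hex
    exact (f.map_adj_iff.mpr hj).2.1
  refine (hG n hn).false ⟨⟨f, f.injective⟩, ?_⟩
  intro i j
  constructor
  · intro h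
    exact f.map_adj_iff.mp ⟨h, hU i, hU j⟩
  · intro h
    exact (f.map_adj_iff.mpr h).1

/-- **Local colourability.** -/
theorem local_col [Fintype V] [DecidableEq V]
    (hG : ∀ n : ℕ, 5 ≤ n → IsEmpty (cycleGraph n ↪g G))
    {w : ℕ} (hw : 2 ≤ w) (hfree : G.CliqueFree (w + 1))
    (hloc : ∀ q z : V, q ≠ z → ¬ G.Adj q z → ∀ s : V,
      (G.induce (insert s (remote G w {q, z}))).Colorable w) :
    ∀ (n : ℕ) (U : Finset V), U.card ≤ n →
      ∃ A : Finset V, ∀ Q : Finset V, (resG G (U : Set V)).IsClique (Q : Set V) → Q.card = w →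
        ¬ Q ⊆ A ∧ ¬ Q ⊆ Aᶜ := by
  classical
  intro n
  induction n with
  | zero =>
    intro U hU
    refine ⟨∅, fun Q hQ hc => ?_⟩
    exfalso
    obtain ⟨a, ha, b, hb, hab⟩ := Finset.one_lt_card.mp (by omega : 1 < Q.card)
    have h := hQ ha hb hab
    have h0 : U = ∅ := Finset.card_eq_zero.mp (by omega)
    have h1 : a ∈ (U : Set V) := h.2.1
    rw [h0] at h1
    simp at h1
  | succ n ih =>
    intro U hUn
    set H := resG G (U : Set V) with hH
    have hHG : ∀ a b, H.Adj a b → G.Adj a b := fun a b h => h.1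
    have hle : H ≤ G := fun a b h => h.1
    have hHh := resG_nohole hG (U : Set V)
    have hHf : H.CliqueFree (w + 1) := hfree.anti hle
    have hQU : ∀ Q : Finset V, H.IsClique (Q : Set V) → Q.card = w → ∀ x ∈ Q, x ∈ U := by
      intro Q hQ hc x hx
      obtain ⟨k, hk, hkx⟩ := Finset.exists_mem_ne (by omega : 1 < Q.card) x
      exact_mod_cast (hQ hx hk hkx.symm).2.1
    by_cases hdom : ∃ v q, H.Adj v q ∧ ∀ x, H.Adj v x → x ≠ q → H.Adj q x
    · obtain ⟨v, q, hvq, hdm⟩ := hdom
      have hvU : v ∈ U := by exact_mod_cast hvq.2.1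
      obtain ⟨A', hA'⟩ := ih (U.erase v) (by
        rw [Finset.card_erase_of_mem hvU]
        omega)
      have hres : ∀ Q : Finset V, H.IsClique (Q : Set V) → Q.card = w → v ∉ Q →
          (resG G ((U.erase v : Finset V) : Set V)).IsClique (Q : Set V) := by
        intro Q hQ hc hv a ha b hb hab
        have h := hQ ha hb hab
        have ha' : a ∈ Q := by exact_mod_cast ha
        have hb' : b ∈ Q := by exact_mod_cast hb
        refine ⟨h.1, ?_, ?_⟩
        · have : a ∈ U.erase v := Finset.mem_erase.mpr ⟨fun e => hv (e ▸ ha'), hQU Q hQ hc a ha'⟩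
          exact_mod_cast this
        · have : b ∈ U.erase v := Finset.mem_erase.mpr ⟨fun e => hv (e ▸ hb'), hQU Q hQ hc b hb'⟩
          exact_mod_cast this
      have hbig : ∀ Q : Finset V, H.IsClique (Q : Set V) → Q.card = w → v ∈ Q → q ∈ Q := by
        intro Q hQ hc hv
        by_contra hq
        refine hHf (insert q Q) ⟨?_, ?_⟩
        · rw [Finset.coe_insert]
          refine hQ.insert (fun b hb hqb => ?_)
          by_cases hbv : b = v
          · rw [hbv]
            exact hvq.symm
          · exact hdm b (hQ hv hb (Ne.symm hbv)) (Ne.symm hqb)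
        · rw [Finset.card_insert_of_notMem hq, hc]
      by_cases hqA : q ∈ A'
      · refine ⟨A'.erase v, fun Q hQ hc => ?_⟩
        by_cases hv : v ∈ Q
        · have hq := hbig Q hQ hc hv
          constructor
          · intro h
            exact (Finset.mem_erase.mp (h hv)).1 rfl
          · intro h
            have := h hq
            rw [Finset.mem_compl, Finset.mem_erase] at this
            exact this ⟨hvq.ne.symm, hqA⟩
        · obtain ⟨h1, h2⟩ := hA' Q (hres Q hQ hc hv) hc
          constructor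
          · intro h
            exact h1 (fun x hx => (Finset.mem_erase.mp (h hx)).2)
          · intro h
            refine h2 (fun x hx => ?_)
            have := h hx
            rw [Finset.mem_compl, Finset.mem_erase] at this
            rw [Finset.mem_compl]
            exact fun hxA => this ⟨fun e => hv (e ▸ hx), hxA⟩
      · refine ⟨insert v A', fun Q hQ hc => ?_⟩
        by_cases hv : v ∈ Q
        · have hq := hbig Q hQ hc hv
          constructor
          · intro h
            rcases Finset.mem_insert.mp (h hq) with h' | h'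
            · exact hvq.ne h'.symm
            · exact hqA h'
          · intro h
            have := h hv
            rw [Finset.mem_compl] at this
            exact this (Finset.mem_insert_self _ _)
        · obtain ⟨h1, h2⟩ := hA' Q (hres Q hQ hc hv) hc
          constructor
          · intro h
            refine h1 (fun x hx => ?_)
            rcases Finset.mem_insert.mp (h hx) with h' | h'
            · exact absurd (h' ▸ hx) hv
            · exact h'
          · intro h
            refine h2 (fun x hx => ?_)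
            have := h hx
            rw [Finset.mem_compl] at this ⊢
            exact fun hxA => this (Finset.mem_insert_of_mem hxA)
    · push Not at hdom
      by_cases hedge : ∃ r s, H.Adj r s
      swap
      · push Not at hedge
        refine ⟨∅, fun Q hQ hc => ?_⟩
        exfalso
        obtain ⟨a, ha, b, hb, hab⟩ := Finset.one_lt_card.mp (by omega : 1 < Q.card)
        exact hedge a b (hQ ha hb hab)
      obtain ⟨r, s0, hrs0⟩ := hedge
      by_cases hgood : ∀ Q : Finset V, H.IsClique (Q : Set V) → Q.card = w →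
          ∃ x ∈ Q, H.Adj r x
      · refine ⟨Finset.univ.filter (fun v => H.Adj r v), fun Q hQ hc => ⟨?_, ?_⟩⟩
        · intro hsub
          have hall : ∀ x ∈ Q, H.Adj r x := fun x hx => (Finset.mem_filter.mp (hsub hx)).2
          have hrQ : r ∉ Q := fun h => H.loopless.irrefl r (hall r h)
          refine hHf (insert r Q) ⟨?_, ?_⟩
          · rw [Finset.coe_insert]
            exact hQ.insert (fun b hb _ => hall b (by exact_mod_cast hb))
          · rw [Finset.card_insert_of_notMem hrQ, hc]
        · intro hsub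
          obtain ⟨x, hx, hrx⟩ := hgood Q hQ hc
          have := hsub hx
          rw [Finset.mem_compl, Finset.mem_filter] at this
          exact this ⟨Finset.mem_univ _, hrx⟩
      · push Not at hgood
        obtain ⟨K, hKcl, hKc, hKr⟩ := hgood
        have hrK : r ∉ K := by
          intro h
          obtain ⟨k, hk, hkr⟩ := Finset.exists_mem_ne (by omega : 1 < K.card) r
          exact hKr k hk (hKcl h hk hkr.symm)
        have hK : ∀ k ∈ K, k ≠ r ∧ ¬ H.Adj r k := fun k hk => ⟨fun e => hrK (e ▸ hk), hKr k hk⟩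
        have hnc : ∀ s, H.Adj r s → ∃ k ∈ K, ¬ H.Adj s k := by
          intro s hrs
          by_contra hcon
          push Not at hcon
          have hsK : s ∉ K := fun h => hKr s h hrs
          refine hHf (insert s K) ⟨?_, ?_⟩
          · rw [Finset.coe_insert]
            exact hKcl.insert (fun b hb _ => hcon b (by exact_mod_cast hb))
          · rw [Finset.card_insert_of_notMem hsK, hKc]
        obtain ⟨q, hrq, hend⟩ := exists_end hHh hK hKcl hnc ⟨s0, hrs0⟩
        set P := comp H r K q with hP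
        have hPaway : ∀ v ∈ P, v ∈ away H r q := fun v hv => comp_sub_away hK hv
        obtain ⟨k0, hk0, hqk0⟩ := hnc q hrq
        have hk0P : k0 ∈ P := mem_comp_of_mem hk0 hqk0
        have hPU : ∀ v ∈ P, v ∈ U := by
          rintro v ⟨k, hk, hqk, hreach⟩
          refine reach_induct hreach (fun v => v ∈ U) (hQU K hKcl hKc k hk) ?_
          intro a b _ hab
          exact_mod_cast hab.1.2.2
        obtain ⟨x, hrx, hxq, hqx⟩ := hdom r q hrq
        have hxP : x ∉ P := fun h => (hPaway x h).2.1 hrx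
        have hxU : x ∈ U := by exact_mod_cast hrx.2.2
        have hqU : q ∈ U := by exact_mod_cast hrq.2.2
        have hPq : ∀ v ∈ P, v ≠ q ∧ ¬ H.Adj q v := by
          intro v hv
          refine ⟨?_, (hPaway v hv).2.2⟩
          rintro rfl
          exact (hPaway v hv).2.1 hrq
        have hGH : ∀ a b, a ∈ U → b ∈ U → ¬ H.Adj a b → ¬ G.Adj a b := by
          intro a b ha hb h hab
          exact h ⟨hab, by exact_mod_cast ha, by exact_mod_cast hb⟩
        let R2 : Set V := {v | v ∈ U ∧ v ≠ q ∧ ¬ H.Adj q v ∧ v ∉ P}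
        let Z1 : Finset V := Finset.univ.filter
          (fun v => ∃ Q : Finset V, H.IsNClique w Q ∧ v ∈ Q ∧ ∀ u ∈ Q, u ∈ P)
        let Z2 : Finset V := Finset.univ.filter
          (fun v => ∃ Q : Finset V, H.IsNClique w Q ∧ v ∈ Q ∧ ∀ u ∈ Q, u ∈ R2)
        have hZ1 : ∀ z, z ∈ Z1 ↔ ∃ Q : Finset V, H.IsNClique w Q ∧ z ∈ Q ∧ ∀ u ∈ Q, u ∈ P :=
          fun z => by simp [Z1]
        have hZ2 : ∀ z, z ∈ Z2 ↔ ∃ Q : Finset V, H.IsNClique w Q ∧ z ∈ Q ∧ ∀ u ∈ Q, u ∈ R2 :=
          fun z => by simp [Z2]
        have hZ1P : ∀ z ∈ Z1, z ∈ P := by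
          intro z hz
          obtain ⟨Q, _, h1, h2⟩ := (hZ1 z).mp hz
          exact h2 z h1
        have hZ2R : ∀ z ∈ Z2, z ∈ R2 := by
          intro z hz
          obtain ⟨Q, _, h1, h2⟩ := (hZ2 z).mp hz
          exact h2 z h1
        have hanti : ∀ u ∈ Z1, ∀ v ∈ Z2, ¬ H.Adj u v := by
          intro u hu v hv huv
          have hu' := hZ1P u hu
          have hv' := hZ2R v hv
          exact hv'.2.2.1 (hend v hv'.2.2.2 ⟨u, hu', huv.symm⟩)
        have hcolor : ∀ (S1 : Finset V) (z y : V), q ≠ z → ¬ G.Adj q z →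
            (∀ v ∈ S1, ∃ Q : Finset V, H.IsNClique w Q ∧ v ∈ Q ∧
              ∀ u ∈ Q, (u ≠ q ∧ ¬ G.Adj q u) ∧ (u ≠ z ∧ ¬ G.Adj z u)) →
            (H.induce (insert y (S1 : Set V))).Colorable w := by
          intro S1 z y hqz hnqz hS1
          have hmem : ∀ v ∈ insert y (S1 : Set V), v ∈ insert y (remote G w {q, z}) := by
            intro v hv
            rcases hv with h | h
            · exact Or.inl h
            · obtain ⟨Q, h1, h2, h3⟩ := hS1 v (by exact_mod_cast h)
              refine Or.inr ⟨Q, ⟨fun a ha b hb hab => hHG a b (h1.1 ha hb hab), h1.2⟩, h2, ?_⟩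
              intro u hu b hb
              rcases hb with hb | hb
              · rw [hb]
                exact (h3 u hu).1
              · rw [Set.mem_singleton_iff] at hb
                rw [hb]
                exact (h3 u hu).2
          refine (hloc q z hqz hnqz y).of_hom
            { toFun := fun v => ⟨v.1, hmem v.1 v.2⟩
              map_rel' := ?_ }
          intro a b hab
          exact hHG _ _ hab
        have hcA : ∀ y, H.Adj q y → (H.induce (insert y (Z1 : Set V))).Colorable w := by
          intro y _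
          refine hcolor _ x y (Ne.symm hxq) (hGH q x hqU hxU hqx) ?_
          intro v hv
          obtain ⟨Q, h1, h2, h3⟩ := (hZ1 v).mp hv
          refine ⟨Q, h1, h2, fun u hu => ?_⟩
          have huP : u ∈ P := h3 u hu
          refine ⟨⟨(hPq u huP).1, hGH q u hqU (hPU u huP) (hPq u huP).2⟩, ?_, ?_⟩
          · rintro rfl
            exact hxP huP
          · refine hGH x u hxU (hPU u huP) ?_
            intro hxv
            exact hqx (hend x hxP ⟨u, huP, hxv⟩)
        have hcB : ∀ y, H.Adj q y → (H.induce (insert y (Z2 : Set V))).Colorable w := by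
          intro y _
          have hk0U := hPU k0 hk0P
          refine hcolor _ k0 y (fun e => (hPq k0 hk0P).1 e.symm) (hGH q k0 hqU hk0U hqk0) ?_
          intro v hv
          obtain ⟨Q, h1, h2, h3⟩ := (hZ2 v).mp hv
          refine ⟨Q, h1, h2, fun u hu => ?_⟩
          have hvZ := h3 u hu
          refine ⟨⟨hvZ.2.1, hGH q u hqU hvZ.1 hvZ.2.2.1⟩, ?_, ?_⟩
          · rintro rfl
            exact hvZ.2.2.2 hk0P
          · refine hGH k0 u hk0U hvZ.1 ?_
            intro h
            exact hvZ.2.2.1 (hend u hvZ.2.2.2 ⟨k0, hk0P, h.symm⟩)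
        have hcC : ∀ Q : Finset V, H.IsClique (Q : Set V) → Q.card = w →
            (∀ z ∈ Q, z ≠ q ∧ ¬ H.Adj q z) → Q ⊆ Z1 ∨ Q ⊆ Z2 := by
          intro Q hQ hc hQq
          by_cases hex : ∃ p ∈ Q, p ∈ P
          · obtain ⟨p, hpQ, hpP⟩ := hex
            refine Or.inl (fun v hv => (hZ1 v).mpr ⟨Q, ⟨hQ, hc⟩, hv, fun u hu => ?_⟩)
            by_contra huP
            have hup : u ≠ p := fun e => huP (e ▸ hpP)
            exact (hQq u hu).2 (hend u huP ⟨p, hpP, hQ hu hpQ hup⟩)
          · push Not at hex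
            exact Or.inr (fun v hv => (hZ2 v).mpr ⟨Q, ⟨hQ, hc⟩, hv, fun u hu =>
              ⟨hQU Q hQ hc u hu, (hQq u hu).1, (hQq u hu).2, hex u hu⟩⟩)
        obtain ⟨A, _, _, hA⟩ := two_pieces (q := q) (r := r) hHh hw hHf hrq.symm Z1 Z2
          (fun z hz => hPq z (hZ1P z hz))
          (fun z hz => ⟨(hZ2R z hz).2.1, (hZ2R z hz).2.2.1⟩) hanti hcA hcB hcC
        exact ⟨A, hA⟩

end Pool.Agent.LongHole
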