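import Mathlib
import Pool.Agent.LongHole.PivotQ
import Pool.Agent.LongHole.ChordCol

/-!
Partitions for locally colourable graphs, in particular for graphs without an induced four-cycle
plus two isolated vertices.
-/

set_option autoImplicit false

namespace Pool.Agent.LongHole

open SimpleGraph

variable {V : Type*} {G : SimpleGraph V}

/-- Embedding of the four-cycle. -/
lemma c4_emb {a b c d : V} (hab : G.Adj a b) (hbc : G.Adj b c) (hcd : G.Adj c d)
    (hda : G.Adj d a) (hac : a ≠ c) (hbd : b ≠ d) (nac : ¬ G.Adj a c) (nbd : ¬ G.Adj b d) :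
    ∃ f : cycleGraph 4 ↪g G, f 0 = a ∧ f 1 = b ∧ f 2 = c ∧ f 3 = d := by
  have hadj : ∀ i j : Fin 4, G.Adj ((![a, b, c, d] : Fin 4 → V) i) ((![a, b, c, d] : Fin 4 → V) j)
      ↔ (cycleGraph 4).Adj i j := by
    intro i j
    rw [cycleGraph_adj_val (by norm_num)]
    fin_cases i <;> fin_cases j <;>
      simp [hab, hbc, hcd, hda, hab.symm, hbc.symm, hcd.symm, hda.symm, nac, nbd,
        G.adj_comm c a, G.adj_comm d b]
  refine ⟨⟨⟨![a, b, c, d], ?_⟩, ?_⟩, rfl, rfl, rfl, rfl⟩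
  · intro i j hij
    fin_cases i <;> fin_cases j <;> simp [hab.ne, hab.ne.symm, hbc.ne, hbc.ne.symm, hcd.ne,
      hcd.ne.symm, hda.ne, hda.ne.symm, hac, hac.symm, hbd, hbd.symm] at hij ⊢
  · intro i j
    exact hadj i j

lemma noC4_of_induce {S : Set V} (h : IsEmpty (cycleGraph 4 ↪g G.induce S)) : NoC4 G S := by
  intro a b c d ha hb hc hd hab hbc hcd hda hac hbd
  by_contra hcon
  push Not at hcon
  obtain ⟨f, _⟩ := c4_emb (G := G.induce S) (a := ⟨a, ha⟩) (b := ⟨b, hb⟩) (c := ⟨c, hc⟩)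
    (d := ⟨d, hd⟩) hab hbc hcd hda (fun e => hac (congrArg Subtype.val e))
    (fun e => hbd (congrArg Subtype.val e)) hcon.1 hcon.2
  exact h.false f

lemma noC4_of_sum {q z : V} (hqz : q ≠ z) (hnqz : ¬ G.Adj q z)
    (h : IsEmpty ((cycleGraph 4 ⊕g (⊥ : SimpleGraph (Fin 2))) ↪g G)) {S : Set V}
    (hS : ∀ u ∈ S, (u ≠ q ∧ ¬ G.Adj q u) ∧ (u ≠ z ∧ ¬ G.Adj z u)) : NoC4 G S := by
  intro a b c d ha hb hc hd hab hbc hcd hda hac hbd
  by_contra hcon
  push Not at hcon
  obtain ⟨f, f0, f1, f2, f3⟩ := c4_emb (G := G) hab hbc hcd hda hac hbd hcon.1 hcon.2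
  have hfS : ∀ i, f i ∈ S := by
    intro i
    fin_cases i
    · exact f0 ▸ ha
    · exact f1 ▸ hb
    · exact f2 ▸ hc
    · exact f3 ▸ hd
  let g : Fin 2 → V := ![q, z]
  have hgi : ∀ i : Fin 2, g i = q ∨ g i = z := by
    intro i
    fin_cases i
    · exact Or.inl rfl
    · exact Or.inr rfl
  have hgne : ∀ i j : Fin 2, g i = g j → i = j := by
    intro i j hij
    fin_cases i <;> fin_cases j <;> simp [g, hqz, hqz.symm] at hij ⊢
  have hgadj : ∀ i j : Fin 2, ¬ G.Adj (g i) (g j) := by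
    intro i j
    fin_cases i <;> fin_cases j <;> simp [g, hnqz, G.adj_comm z q]
  have hfg : ∀ i j, f i ≠ g j ∧ ¬ G.Adj (f i) (g j) := by
    intro i j
    have h1 := hS (f i) (hfS i)
    rcases hgi j with e | e <;> rw [e]
    · exact ⟨h1.1.1, fun h2 => h1.1.2 h2.symm⟩
    · exact ⟨h1.2.1, fun h2 => h1.2.2 h2.symm⟩
  refine h.false ⟨⟨Sum.elim f g, ?_⟩, ?_⟩
  · rintro (i | i) (j | j) hij
    · exact congrArg Sum.inl (f.injective hij)
    · exact absurd hij (hfg i j).1
    · exact absurd hij.symm (hfg j i).1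
    · exact congrArg Sum.inr (hgne i j hij)
  · rintro (i | i) (j | j)
    · change G.Adj (f i) (f j) ↔ _
      rw [f.map_adj_iff]
      simp
    · change G.Adj (f i) (g j) ↔ _
      simpa using (hfg i j).2
    · change G.Adj (g i) (f j) ↔ _
      have h1 : ¬ G.Adj (g i) (f j) := fun h2 => (hfg j i).2 h2.symm
      simpa using h1
    · change G.Adj (g i) (g j) ↔ _
      simpa using hgadj i j

end Pool.Agent.LongHole
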