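import Mathlib
import Pool.Agent.LongHole.Star

/-!
Partitions of the vertex set given by the neighbourhood of one vertex.
-/

set_option autoImplicit false

namespace Pool.Agent.LongHole

open SimpleGraph

variable {V : Type*} {G : SimpleGraph V} {r : V}

/-- `s` is a maximum clique. -/
def MaxC (G : SimpleGraph V) (s : Finset V) : Prop :=
  G.IsClique (s : Set V) ∧ ∀ t : Finset V, G.IsClique (t : Set V) → t.card ≤ s.card

/-- No vertex outside is complete to a maximum clique. -/
lemma MaxC.not_complete {s : Finset V} (hs : MaxC G s) {x : V} (hx : x ∉ s) :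
    ∃ k ∈ s, ¬ G.Adj x k := by
  classical
  by_contra hcon
  push Not at hcon
  have hcl : G.IsClique ((insert x s : Finset V) : Set V) := by
    rw [Finset.coe_insert]
    exact hs.1.insert (fun b hb _ => hcon b (by exact_mod_cast hb))
  have := hs.2 _ hcl
  rw [Finset.card_insert_of_notMem hx] at this
  omega

lemma MaxC.two_le {s : Finset V} (hs : MaxC G s) (hE : ∃ u v : V, G.Adj u v) : 2 ≤ s.card := by
  classical
  obtain ⟨u, v, huv⟩ := hE
  have h := hs.2 {u, v} (by
    rw [Finset.coe_pair]
    exact SimpleGraph.isClique_pair.mpr fun _ => huv)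
  rwa [Finset.card_pair huv.ne] at h

/-- A maximum clique is not contained in the neighbourhood of `r`. -/
lemma MaxC.not_sub_nbr {s : Finset V} (hs : MaxC G s) (h : ∀ x ∈ s, G.Adj r x) : False := by
  have hr : r ∉ s := fun h1 => G.loopless.irrefl r (h r h1)
  obtain ⟨k, hk, hn⟩ := hs.not_complete hr
  exact hn (h k hk)

lemma MaxC.not_mem {s : Finset V} (hs : MaxC G s) (hE : ∃ u v : V, G.Adj u v)
    (h : ∀ x ∈ s, ¬ G.Adj r x) : r ∉ s := by
  intro hr
  have h2 := hs.two_le hE
  obtain ⟨k, hk, hkr⟩ := Finset.exists_mem_ne (by omega : 1 < s.card) r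
  exact h k hk (hs.1 hr hk hkr.symm)

/-- If `r` has no neighbour which is the centre of a star cutset separating `r` from something,
then no maximum clique lies inside the complement of the neighbourhood of `r`. -/
theorem star_part [Fintype V] (hG : ∀ n : ℕ, 5 ≤ n → IsEmpty (cycleGraph n ↪g G))
    (hconn : G.Connected) (hE : ∃ u v : V, G.Adj u v) {s : Finset V} (hs : MaxC G s)
    (h : ∀ x ∈ s, ¬ G.Adj r x) :
    ∃ q, G.Adj r q ∧ ∃ X : Set V, q ∈ X ∧ (∀ x ∈ X, x ≠ q → G.Adj q x) ∧
      ∃ (hrX : r ∈ Xᶜ) (k : V) (hkX : k ∈ Xᶜ), k ∈ s ∧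
        ¬ (G.induce Xᶜ).Reachable ⟨r, hrX⟩ ⟨k, hkX⟩ := by
  have hrs := hs.not_mem hE h
  refine exists_star_cutset hG (fun k hk => ⟨fun e => hrs (e ▸ hk), h k hk⟩) hs.1 ?_ ?_
  · intro x hx
    exact hs.not_complete (fun h1 => h x h1 hx)
  · have h2 := hs.two_le hE
    obtain ⟨k, hk⟩ : s.Nonempty := Finset.card_pos.mp (by omega)
    have hkr : r ≠ k := fun e => hrs (e ▸ hk)
    obtain ⟨p⟩ := hconn.preconnected r k
    cases p with
    | nil => exact absurd rfl hkr
    | cons hadj _ => exact ⟨_, hadj⟩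

/-- A graph with an edge and without star cutset is connected. -/
lemma connected_of_star (hE : ∃ u v : V, G.Adj u v)
    (hst : ∀ (q : V) (X : Set V), q ∈ X → (∀ x ∈ X, x ≠ q → G.Adj q x) →
      (G.induce Xᶜ).Preconnected) : G.Connected := by
  obtain ⟨u, v, huv⟩ := hE
  have : Nonempty V := ⟨u⟩
  refine SimpleGraph.Connected.mk ?_
  intro a b
  by_cases hab : a = b
  · subst hab
    exact Reachable.refl _
  by_cases h : ∃ q, q ≠ a ∧ q ≠ b
  · obtain ⟨q, hqa, hqb⟩ := h
    have h1 := hst q {q} rfl (by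
      intro x hx hxq
      exact absurd hx hxq)
    have h2 := h1 ⟨a, fun e => hqa (Set.mem_singleton_iff.mp e).symm⟩
      ⟨b, fun e => hqb (Set.mem_singleton_iff.mp e).symm⟩
    exact h2.map (Embedding.induce _).toHom
  · push Not at h
    have key : ∀ q, q = a ∨ q = b := by
      intro q
      by_cases hq : q = a
      · exact Or.inl hq
      · exact Or.inr (h q hq)
    have hadj : G.Adj a b := by
      rcases key u with hu | hu <;> rcases key v with hv | hv
      · rw [hu, hv] at huv
        exact absurd huv (G.loopless.irrefl a)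
      · rw [hu, hv] at huv
        exact huv
      · rw [hu, hv] at huv
        exact huv.symm
      · rw [hu, hv] at huv
        exact absurd huv (G.loopless.irrefl b)
    exact hadj.reachable

/-- A vertex of a maximum clique away from `r` whose neighbours in the neighbourhood of `r` are
dominated. -/
lemma exists_dominated [Fintype V] (hG : ∀ n : ℕ, 5 ≤ n → IsEmpty (cycleGraph n ↪g G))
    {s : Finset V} (hs : MaxC G s) (hsr : ∀ x ∈ s, x ≠ r ∧ ¬ G.Adj r x) :
    ∃ y ∈ s, (∀ x, G.Adj r x → ¬ G.Adj y x) ∨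
      ∃ q, G.Adj r q ∧ ¬ G.Adj q y ∧ ∀ x, G.Adj r x → G.Adj y x → G.Adj q x := by
  classical
  by_cases hr : ∃ q, G.Adj r q
  · let tau : V → Finset V := fun q => s.filter (fun k => G.Adj q k)
    obtain ⟨q, hq, hmax⟩ := Finset.exists_max_image ((Finset.univ : Finset V).filter
      (fun q => G.Adj r q)) (fun q => (tau q).card) (by
        obtain ⟨q, hq⟩ := hr
        exact ⟨q, by simpa using hq⟩)
    have hrq : G.Adj r q := by simpa using hq
    have hqs : q ∉ s := fun h => (hsr q h).2 hrq
    obtain ⟨y, hy, hqy⟩ := hs.not_complete hqs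
    refine ⟨y, hy, Or.inr ⟨q, hrq, hqy, ?_⟩⟩
    intro x hrx hyx
    by_contra hqx
    have hxq : x ≠ q := by
      rintro rfl
      exact hqy hyx.symm
    have hle : (tau x).card ≤ (tau q).card := hmax x (by simpa using hrx)
    have hex : ∃ k ∈ tau q, k ∉ tau x := by
      by_contra hcon
      push Not at hcon
      have hsub : insert y (tau q) ⊆ tau x := by
        intro z hz
        rw [Finset.mem_insert] at hz
        rcases hz with h | h
        · rw [h]
          exact Finset.mem_filter.mpr ⟨hy, hyx.symm⟩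
        · exact hcon z h
      have h1 : (insert y (tau q)).card ≤ (tau x).card := Finset.card_le_card hsub
      have h2 : (insert y (tau q)).card = (tau q).card + 1 :=
        Finset.card_insert_of_notMem (fun h => hqy (Finset.mem_filter.mp h).2)
      omega
    obtain ⟨k, hk1, hk2⟩ := hex
    have hks : k ∈ s := (Finset.mem_filter.mp hk1).1
    have hqk : G.Adj q k := (Finset.mem_filter.mp hk1).2
    have hxk : ¬ G.Adj x k := fun h => hk2 (Finset.mem_filter.mpr ⟨hks, h⟩)
    have hky : k ≠ y := by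
      rintro rfl
      exact hqy hqk
    have hkyadj : G.Adj k y := hs.1 hks hy hky
    have hkr := hsr k hks
    have hyr := hsr y hy
    have hxkne : x ≠ k := by
      rintro rfl
      exact hkr.2 hrx
    refine two_path G hG x k {y} {r, q} hxkne hxk ?_ ?_ ?_ ?_ ?_ ?_ ?_
    · rintro (h | h)
      · exact hrx.ne h.symm
      · exact hxq h
    · rintro (h | h)
      · exact hkr.1 h
      · exact hqk.ne h.symm
    · intro u hu v hv huv
      have hu' : u = y := hu
      subst hu'
      rcases hv with h | h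
      · exact hyr.1 (huv.trans h)
      · have : u = q := huv.trans h
        exact hyr.2 (this ▸ hrq)
    · intro u hu v hv huv
      have hu' : u = y := hu
      subst hu'
      rcases hv with h | h
      · have : v = r := h
        subst this
        exact hyr.2 huv.symm
      · have : v = q := h
        subst this
        exact hqy huv.symm
    · rintro v hv ⟨h1, h2⟩
      rcases hv with h | h
      · have : v = r := h
        subst this
        exact hkr.2 h2.symm
      · have : v = q := h
        subst this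
        exact hqx h1.symm
    · have h1 : (resG G ({y} ∪ {x, k})).Reachable x y :=
        Adj.reachable ⟨hyx.symm, Or.inr (Or.inl rfl), Or.inl rfl⟩
      have h2 : (resG G ({y} ∪ {x, k})).Reachable y k :=
        Adj.reachable ⟨hkyadj.symm, Or.inl rfl, Or.inr (Or.inr rfl)⟩
      exact h1.trans h2
    · have h1 : (resG G ({r, q} ∪ {x, k})).Reachable x r :=
        Adj.reachable ⟨hrx.symm, Or.inr (Or.inl rfl), Or.inl (Or.inl rfl)⟩
      have h2 : (resG G ({r, q} ∪ {x, k})).Reachable r q :=
        Adj.reachable ⟨hrq, Or.inl (Or.inl rfl), Or.inl (Or.inr rfl)⟩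
      have h3 : (resG G ({r, q} ∪ {x, k})).Reachable q k :=
        Adj.reachable ⟨hqk, Or.inl (Or.inr rfl), Or.inr (Or.inr rfl)⟩
      exact (h1.trans h2).trans h3
  · push Not at hr
    have hrs : r ∉ s := fun h => (hsr r h).1 rfl
    obtain ⟨y, hy, _⟩ := hs.not_complete hrs
    exact ⟨y, hy, Or.inl (fun x hx => absurd hx (hr x))⟩

/-- If every component of `G - N[r]` contains at most one maximum clique then there is a
partition. -/
theorem one_per_component [Fintype V] [DecidableEq V]
    (hG : ∀ n : ℕ, 5 ≤ n → IsEmpty (cycleGraph n ↪g G)) (hE : ∃ u v : V, G.Adj u v) (r : V)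
    (h1 : ∀ s t : Finset V, MaxC G s → MaxC G t →
      ∀ (hs : ∀ x ∈ s, x ≠ r ∧ ¬ G.Adj r x) (ht : ∀ x ∈ t, x ≠ r ∧ ¬ G.Adj r x)
      (x y : V) (hx : x ∈ s) (hy : y ∈ t),
      (G.induce {v | v ≠ r ∧ ¬ G.Adj r v}).Reachable ⟨x, hs x hx⟩ ⟨y, ht y hy⟩ → s = t) :
    ∃ A : Finset V, ∀ s : Finset V, MaxC G s → ¬ s ⊆ A ∧ ¬ s ⊆ Aᶜ := by
  classical
  have hch : ∀ s : Finset V, ∃ y : V, (MaxC G s ∧ ∀ x ∈ s, x ≠ r ∧ ¬ G.Adj r x) →
      y ∈ s ∧ ((∀ x, G.Adj r x → ¬ G.Adj y x) ∨
        ∃ q, G.Adj r q ∧ ¬ G.Adj q y ∧ ∀ x, G.Adj r x → G.Adj y x → G.Adj q x) := by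
    intro s
    by_cases h : MaxC G s ∧ ∀ x ∈ s, x ≠ r ∧ ¬ G.Adj r x
    · obtain ⟨y, hy⟩ := exists_dominated hG h.1 h.2
      exact ⟨y, fun _ => hy⟩
    · exact ⟨r, fun h' => absurd h' h⟩
  choose y hy using hch
  refine ⟨Finset.univ.filter (fun v => G.Adj r v ∨
    ∃ s : Finset V, (MaxC G s ∧ ∀ x ∈ s, x ≠ r ∧ ¬ G.Adj r x) ∧ v = y s), ?_⟩
  intro t ht
  constructor
  · intro hsub
    have hmem : ∀ x ∈ t, G.Adj r x ∨
        ∃ s : Finset V, (MaxC G s ∧ ∀ x ∈ s, x ≠ r ∧ ¬ G.Adj r x) ∧ x = y s := by
      intro x hx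
      have := hsub hx
      rw [Finset.mem_filter] at this
      exact this.2
    by_cases hall : ∀ x ∈ t, G.Adj r x
    · exact ht.not_sub_nbr hall
    push Not at hall
    obtain ⟨z, hzt, hz⟩ := hall
    obtain ⟨s, hs, hzs⟩ := (hmem z hzt).resolve_left hz
    have hys := hy s hs
    -- all other elements are neighbours of `r`
    have hoth : ∀ x ∈ t, x ≠ z → G.Adj r x := by
      intro x hx hxz
      by_contra hrx
      obtain ⟨s', hs', hxs'⟩ := (hmem x hx).resolve_left hrx
      have hys' := hy s' hs'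
      have hxs : x ∈ s' := hxs' ▸ hys'.1
      have hzs2 : z ∈ s := hzs ▸ hys.1
      have hadj : G.Adj x z := ht.1 hx hzt hxz
      have := h1 s' s hs'.1 hs.1 hs'.2 hs.2 x z hxs hzs2 (Adj.reachable hadj)
      rw [hxs', this, ← hzs] at hxz
      exact hxz rfl
    have h2 := ht.two_le hE
    rcases hys.2 with hno | ⟨q, hrq, hqy, hq⟩
    · obtain ⟨k, hk, hkz⟩ := Finset.exists_mem_ne (by omega : 1 < t.card) z
      refine hno k (hoth k hk hkz) ?_
      rw [← hzs]
      exact ht.1 hzt hk hkz.symm
    · rw [← hzs] at hqy hq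
      have hqt : ∀ x ∈ t.erase z, G.Adj q x := by
        intro x hx
        rw [Finset.mem_erase] at hx
        exact hq x (hoth x hx.2 hx.1) (ht.1 hzt hx.2 hx.1.symm)
      have hrt : ∀ x ∈ insert q (t.erase z), G.Adj r x := by
        intro x hx
        rw [Finset.mem_insert] at hx
        rcases hx with h | h
        · rw [h]
          exact hrq
        · rw [Finset.mem_erase] at h
          exact hoth x h.2 h.1
      have hqne : q ∉ t.erase z := fun h => G.loopless.irrefl q (hqt q h)
      have hcl : G.IsClique ((insert q (t.erase z) : Finset V) : Set V) := by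
        rw [Finset.coe_insert]
        refine IsClique.insert ?_ (fun b hb _ => hqt b (by exact_mod_cast hb))
        refine ht.1.subset ?_
        intro x hx
        have hx' : x ∈ t.erase z := by exact_mod_cast hx
        exact_mod_cast (Finset.mem_erase.mp hx').2
      have hmax : MaxC G (insert q (t.erase z)) := by
        refine ⟨hcl, fun u hu => (ht.2 u hu).trans ?_⟩
        rw [Finset.card_insert_of_notMem hqne, Finset.card_erase_of_mem hzt]
        omega
      exact hmax.not_sub_nbr hrt
  · intro hsub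
    have hno : ∀ x ∈ t, ¬ G.Adj r x := by
      intro x hx hrx
      have := hsub hx
      rw [Finset.mem_compl, Finset.mem_filter] at this
      exact this ⟨Finset.mem_univ _, Or.inl hrx⟩
    have hrt := ht.not_mem hE hno
    have ht' : MaxC G t ∧ ∀ x ∈ t, x ≠ r ∧ ¬ G.Adj r x :=
      ⟨ht, fun x hx => ⟨fun e => hrt (e ▸ hx), hno x hx⟩⟩
    have hyt := (hy t ht').1
    have := hsub hyt
    rw [Finset.mem_compl, Finset.mem_filter] at this
    exact this ⟨Finset.mem_univ _, Or.inr ⟨t, ht', rfl⟩⟩

end Pool.Agent.LongHole
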