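import Mathlib
import Pool.Agent.LongHole.Basic

/-!
Tied vertices: let `R` be a connected set whose neighbourhood contains no clique with `w`
elements. A clique with `w` elements which does not meet `R` or its neighbourhood cannot consist
of vertices tied to `R` and of vertices dominated by stable subsets of the neighbourhood.
-/

set_option autoImplicit false

namespace Pool.Agent.LongHole

open SimpleGraph

variable {V : Type*} {G : SimpleGraph V}

/-- The vertices outside `R` which have a neighbour in `R`. -/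
def nbr (G : SimpleGraph V) (R : Set V) : Set V := {v | v ∉ R ∧ ∃ u ∈ R, G.Adj u v}

lemma reach_of_conn {R W : Set V} (hR : (G.induce R).Connected) (hRW : R ⊆ W) {a b : V}
    (ha : a ∈ R) (hb : b ∈ R) : (resG G W).Reachable a b := by
  have h := hR.preconnected ⟨a, ha⟩ ⟨b, hb⟩
  let f : G.induce R →g resG G W :=
    { toFun := fun x => x.1
      map_rel' := fun {x y} hxy => ⟨hxy, hRW x.2, hRW y.2⟩ }
  exact h.map f

/-- Nonadjacent vertices of `nbr G R` have nested traces on cliques which do not meet `R` or its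
neighbourhood. -/
lemma nested (hG : ∀ n : ℕ, 5 ≤ n → IsEmpty (cycleGraph n ↪g G)) {R : Set V}
    (hR : (G.induce R).Connected) {q y : V} (hq : q ∈ nbr G R) (hy : y ∈ nbr G R)
    (hqy : ¬ G.Adj q y) {K : Finset V} (hK : G.IsClique (K : Set V))
    (hr : ∀ k ∈ K, k ∉ R ∧ k ∉ nbr G R) {z : V} (hz : z ∈ K)
    (hqz : ¬ G.Adj q z) (hyz : G.Adj y z) {k : V} (hk : k ∈ K) (hqk : G.Adj q k) :
    G.Adj y k := by
  by_contra hyk
  have hkz : G.Adj k z := by
    refine hK hk hz ?_
    rintro rfl
    exact hqz hqk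
  have hqz' : q ≠ z := by
    rintro rfl
    exact (hr _ hz).2 hq
  have hqy' : q ≠ y := by
    rintro rfl
    exact hqz hyz
  have hzy' : z ≠ y := hyz.ne'
  have hky' : k ≠ y := by
    rintro rfl
    exact (hr _ hk).2 hy
  have hno : ∀ k ∈ K, ∀ u ∈ R, ¬ G.Adj k u := by
    intro k hk u hu h
    exact (hr k hk).2 ⟨(hr k hk).1, u, hu, h.symm⟩
  refine two_path G hG q z {k} (insert y R) hqz' hqz ?_ ?_ ?_ ?_ ?_ ?_ ?_
  · rintro (h | h)
    · exact hqy' h
    · exact hq.1 h
  · rintro (h | h)
    · exact hzy' h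
    · exact (hr z hz).1 h
  · intro u hu v hv huv
    have hu' : u = k := hu
    subst hu'
    rcases hv with h | h
    · exact hky' (huv.trans h)
    · exact (hr u hk).1 (huv ▸ h)
  · intro u hu v hv huv
    have hu' : u = k := hu
    subst hu'
    rcases hv with h | h
    · rw [h] at huv
      exact hyk huv.symm
    · exact hno u hk v h huv
  · rintro v hv ⟨ha, hb⟩
    rcases hv with h | h
    · rw [h] at ha
      exact hqy ha
    · exact hno z hz v h hb
  · have ha : (resG G ({k} ∪ {q, z})).Reachable q k :=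
      Adj.reachable ⟨hqk, Or.inr (Or.inl rfl), Or.inl rfl⟩
    have hb : (resG G ({k} ∪ {q, z})).Reachable k z :=
      Adj.reachable ⟨hkz, Or.inl rfl, Or.inr (Or.inr rfl)⟩
    exact ha.trans hb
  · obtain ⟨-, u, hu, huq⟩ := hq
    obtain ⟨-, v, hv, hvy⟩ := hy
    have ha : (resG G (insert y R ∪ {q, z})).Reachable q u :=
      Adj.reachable ⟨huq.symm, Or.inr (Or.inl rfl), Or.inl (Or.inr hu)⟩
    have hb : (resG G (insert y R ∪ {q, z})).Reachable u v :=
      reach_of_conn hR (fun x hx => Or.inl (Or.inr hx)) hu hv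
    have hc : (resG G (insert y R ∪ {q, z})).Reachable v y :=
      Adj.reachable ⟨hvy, Or.inl (Or.inr hv), Or.inl (Or.inl rfl)⟩
    have hd : (resG G (insert y R ∪ {q, z})).Reachable y z :=
      Adj.reachable ⟨hyz, Or.inl (Or.inl rfl), Or.inr (Or.inr rfl)⟩
    exact ((ha.trans hb).trans hc).trans hd

/-- `z` is tied to `R`: it is not in `R` and not in the neighbourhood `S` of `R`, and some
subset `Y` of `S` forms together with `z` a clique with `w` elements. -/
def TiedTo (G : SimpleGraph V) [DecidableEq V] (w : ℕ) (R : Set V) (z : V) : Prop :=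
  z ∉ R ∧ z ∉ nbr G R ∧ ∃ Y : Finset V, (∀ y ∈ Y, y ∈ nbr G R) ∧ G.IsNClique w (insert z Y)

/-- **Main lemma.** -/
theorem not_sub_tied [Fintype V] [DecidableEq V]
    (hG : ∀ n : ℕ, 5 ≤ n → IsEmpty (cycleGraph n ↪g G)) {w : ℕ} (hw : 2 ≤ w)
    (hfree : G.CliqueFree (w + 1)) {R : Set V} (hR : (G.induce R).Connected)
    (hS : ∀ s : Finset V, G.IsNClique w s → ∃ x ∈ s, x ∉ nbr G R) (X : Set V)
    (hX : ∀ x ∈ X, x ∉ R ∧ x ∉ nbr G R)
    (hdom : ∀ s : Finset V, s.Nonempty → G.IsClique (s : Set V) → (∀ x ∈ s, x ∈ X) →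
      ∃ J : Set V, (∀ q ∈ J, q ∈ nbr G R) ∧ (∀ q ∈ J, ∀ q' ∈ J, ¬ G.Adj q q') ∧
        ∀ x ∈ s, ∃ q ∈ J, G.Adj q x)
    (K : Finset V) (hK : G.IsNClique w K)
    (hsub : ∀ x ∈ K, x ∈ X ∨ TiedTo G w R x) : False := by
  classical
  have hnr : ∀ k ∈ K, k ∉ R ∧ k ∉ nbr G R := by
    intro k hk
    rcases hsub k hk with h | h
    · exact hX k h
    · exact ⟨h.1, h.2.1⟩
  have hKc : G.IsClique (K : Set V) := hK.1
  let tr : V → Finset V := fun q => K.filter fun k => G.Adj q k
  have mtr : ∀ q k, k ∈ tr q ↔ k ∈ K ∧ G.Adj q k := fun q k => Finset.mem_filter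
  -- one vertex of the neighbourhood sees all of `K ∩ X`
  have hone : ∃ q ∈ nbr G R, ∀ x ∈ K, x ∈ X → G.Adj q x := by
    let KX : Finset V := K.filter fun x => x ∈ X
    have mKX : ∀ x, x ∈ KX ↔ x ∈ K ∧ x ∈ X := fun x => Finset.mem_filter
    rcases KX.eq_empty_or_nonempty with he | hne
    · obtain ⟨k, hk⟩ : K.Nonempty := by
        rw [← Finset.card_pos, hK.2]; omega
      have hkX : k ∉ X := fun h => by
        have : k ∈ KX := (mKX k).2 ⟨hk, h⟩
        rw [he] at this
        simp at this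
      rcases hsub k hk with h | h
      · exact absurd h hkX
      · obtain ⟨-, hk2, Y, hY1, hY2⟩ := h
        have hkY : k ∉ Y := fun h => hk2 (hY1 k h)
        have hc := hY2.2
        rw [Finset.card_insert_of_notMem hkY] at hc
        obtain ⟨y, hy⟩ : Y.Nonempty := by
          rw [← Finset.card_pos]; omega
        refine ⟨y, hY1 y hy, ?_⟩
        intro x hx hxX
        have : x ∈ KX := (mKX x).2 ⟨hx, hxX⟩
        rw [he] at this
        simp at this
    · obtain ⟨J, hJr, hJs, hJd⟩ := hdom KX hne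
        (hKc.subset fun x hx => ((mKX x).1 (by exact_mod_cast hx)).1)
        (fun x hx => ((mKX x).1 hx).2)
      have hJne : ((Finset.univ : Finset V).filter fun q => q ∈ J).Nonempty := by
        obtain ⟨x, hx⟩ := hne
        obtain ⟨q, hq, -⟩ := hJd x hx
        exact ⟨q, by simp [hq]⟩
      obtain ⟨q, hq, hmax⟩ := Finset.exists_max_image _ (fun q => (tr q).card) hJne
      have hqJ : q ∈ J := by simpa using hq
      refine ⟨q, hJr q hqJ, ?_⟩
      intro x hx hxX
      by_contra hqx
      obtain ⟨y, hy, hyx⟩ := hJd x ((mKX x).2 ⟨hx, hxX⟩)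
      have hlt : (tr q).card < (tr y).card := by
        refine Finset.card_lt_card ⟨?_, ?_⟩
        · intro k hk
          rw [mtr] at hk ⊢
          exact ⟨hk.1, nested hG hR (hJr q hqJ) (hJr y hy) (hJs q hqJ y hy) hKc hnr hx hqx hyx
            hk.1 hk.2⟩
        · intro h
          have := h ((mtr y x).2 ⟨hx, hyx⟩)
          exact hqx ((mtr q x).1 this).2
      have := hmax y (by simp [hy])
      omega
  obtain ⟨q0, hq0⟩ := hone
  have hne : ((Finset.univ : Finset V).filter fun q => q ∈ nbr G R ∧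
      ∀ x ∈ K, x ∈ X → G.Adj q x).Nonempty := ⟨q0, by simpa using hq0⟩
  obtain ⟨q, hq, hmax⟩ := Finset.exists_max_image _ (fun q => (tr q).card) hne
  have hq' : q ∈ nbr G R ∧ ∀ x ∈ K, x ∈ X → G.Adj q x := by simpa using hq
  have hall : ∀ z ∈ K, G.Adj q z := by
    intro z hz
    rcases hsub z hz with h | h
    · exact hq'.2 z hz h
    by_contra hqz
    obtain ⟨-, hz2, Y, hY1, hY2⟩ := h
    have hzY : z ∉ Y := fun h => hz2 (hY1 z h)
    have hcard := hY2.2
    rw [Finset.card_insert_of_notMem hzY] at hcard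
    have hYz : ∀ y ∈ Y, G.Adj y z := by
      intro y hy
      refine hY2.1 (by simp [hy]) (by simp) ?_
      rintro rfl
      exact hzY hy
    have hYc : G.IsClique (Y : Set V) := hY2.1.subset (by simp)
    have hqY : q ∉ Y := fun h => hqz (hYz q h)
    obtain ⟨y, hy, hqy⟩ : ∃ y ∈ Y, ¬ G.Adj q y := by
      by_contra hcon
      push Not at hcon
      obtain ⟨x, hx, hxS⟩ := hS (insert q Y) ⟨by
        rw [Finset.coe_insert]
        exact IsClique.insert hYc fun b hb _ => hcon b (by exact_mod_cast hb), by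
        rw [Finset.card_insert_of_notMem hqY, hcard]⟩
      rcases Finset.mem_insert.1 hx with h | h
      · exact hxS (h ▸ hq'.1)
      · exact hxS (hY1 x h)
    have hsubK : ∀ k ∈ K, G.Adj q k → G.Adj y k := fun k hk hqk =>
      nested hG hR hq'.1 (hY1 y hy) hqy hKc hnr hz hqz (hYz y hy) hk hqk
    have hlt : (tr q).card < (tr y).card := by
      refine Finset.card_lt_card ⟨?_, ?_⟩
      · intro k hk
        rw [mtr] at hk ⊢
        exact ⟨hk.1, hsubK k hk.1 hk.2⟩
      · intro h
        have := h ((mtr y z).2 ⟨hz, hYz y hy⟩)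
        exact hqz ((mtr q z).1 this).2
    have := hmax y (by
      simp only [Finset.mem_filter, Finset.mem_univ, true_and]
      exact ⟨hY1 y hy, fun x hx hxX => hsubK x hx (hq'.2 x hx hxX)⟩)
    omega
  refine hfree (insert q K) ⟨?_, ?_⟩
  · rw [Finset.coe_insert]
    exact IsClique.insert hKc fun b hb _ => hall b (by exact_mod_cast hb)
  · rw [Finset.card_insert_of_notMem (fun h => G.loopless.irrefl q (hall q h)), hK.2]

end Pool.Agent.LongHole
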