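import Mathlib
import Pool.Agent.LongHole.Tied

set_option autoImplicit false

namespace Pool.Agent.LongHole.TiedQ

open SimpleGraph

/-- The neighbourhood of `R`: the vertices outside `R` which have a neighbour in `R`. -/
def Nbr {V : Type} (G : SimpleGraph V) (R : Set V) : Set V := {v | v ∉ R ∧ ∃ u ∈ R, G.Adj u v}

/-- `z` is tied to `R`: it lies neither in `R` nor in the neighbourhood of `R`, and some set `Y`
of vertices of the neighbourhood of `R` forms together with `z` a maximum clique. -/
def Tied {V : Type} [DecidableEq V] (G : SimpleGraph V) (R : Set V) (z : V) : Prop :=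
  z ∉ R ∧ z ∉ Nbr G R ∧ ∃ Y : Finset V, (∀ y ∈ Y, y ∈ Nbr G R) ∧
    G.IsNClique G.cliqueNum (insert z Y)

/-- Let `G` be a finite graph with at least one edge and no induced cycle of length at least
five. Let `R` be a nonempty set of vertices such that `G[R]` is connected and the neighbourhood
`S` of `R` contains no maximum clique, let `T` be a subset of `R` which contains no maximum
clique, and let `X` be a set of vertices outside `R` and `S`, such that for every nonempty clique
`s` in `X` there is a stable set `J` in `S` with every vertex of `s` adjacent to a vertex of `J`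
(for instance, all vertices outside `R` and `S` which are adjacent to a fixed stable subset of
`S`). Let `B` consist of `T`, of `X` and of all vertices tied to `R`. If every maximum clique
meets `B` then neither `B` nor its complement contains a maximum clique. -/
theorem result : ∀ (V : Type) [Fintype V] [DecidableEq V] (G : SimpleGraph V),
    (∃ u v : V, G.Adj u v) →
    (∀ n : ℕ, 5 ≤ n → IsEmpty (cycleGraph n ↪g G)) →
    ∀ R T X : Set V, (G.induce R).Connected →
    (∀ s : Finset V,
      (G.IsClique (s : Set V) ∧ ∀ t : Finset V, G.IsClique (t : Set V) → t.card ≤ s.card) →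
      ¬ (s : Set V) ⊆ Nbr G R ∧ ¬ (s : Set V) ⊆ T) →
    T ⊆ R →
    (∀ x ∈ X, x ∉ R ∧ x ∉ Nbr G R) →
    (∀ s : Finset V, s.Nonempty → G.IsClique (s : Set V) → (s : Set V) ⊆ X →
      ∃ J : Set V, J ⊆ Nbr G R ∧ (∀ q ∈ J, ∀ q' ∈ J, ¬ G.Adj q q') ∧
        ∀ x ∈ s, ∃ q ∈ J, G.Adj q x) →
    (∀ s : Finset V,
      (G.IsClique (s : Set V) ∧ ∀ t : Finset V, G.IsClique (t : Set V) → t.card ≤ s.card) →
      ∃ x ∈ s, x ∈ T ∨ x ∈ X ∨ Tied G R x) →
    ∃ A : Finset V, (∀ x, x ∈ A ↔ ¬ (x ∈ T ∨ x ∈ X ∨ Tied G R x)) ∧ ∀ s : Finset V,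
      (G.IsClique (s : Set V) ∧ ∀ t : Finset V, G.IsClique (t : Set V) → t.card ≤ s.card) →
      ¬ s ⊆ A ∧ ¬ s ⊆ Aᶜ := by
  classical
  intro V _ _ G hE hG R T X hR hno hTR hX hdom hmeet
  obtain ⟨Q₀, hQ₀⟩ := G.exists_isNClique_cliqueNum
  have hle : ∀ t : Finset V, G.IsClique (t : Set V) → t.card ≤ G.cliqueNum := by
    intro t ht
    exact ht.card_le_cliqueNum
  have hmax : ∀ s : Finset V, (G.IsClique (s : Set V) ∧
      ∀ t : Finset V, G.IsClique (t : Set V) → t.card ≤ s.card) → s.card = G.cliqueNum := by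
    intro s hs
    refine le_antisymm (hle s hs.1) ?_
    have := hs.2 Q₀ hQ₀.1
    rwa [hQ₀.2] at this
  have hw : 2 ≤ G.cliqueNum := by
    obtain ⟨u, v, huv⟩ := hE
    have h := hle {u, v} (by
      rw [Finset.coe_pair]
      exact SimpleGraph.isClique_pair.mpr fun _ => huv)
    rwa [Finset.card_pair huv.ne] at h
  have hfree : G.CliqueFree (G.cliqueNum + 1) := by
    intro t ht
    have := hle t ht.1
    rw [ht.2] at this
    omega
  have hA : ∀ x, x ∈ Finset.univ.filter (fun x => ¬ (x ∈ T ∨ x ∈ X ∨ Tied G R x)) ↔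
      ¬ (x ∈ T ∨ x ∈ X ∨ Tied G R x) := fun x => by simp
  refine ⟨Finset.univ.filter (fun x => ¬ (x ∈ T ∨ x ∈ X ∨ Tied G R x)), hA, ?_⟩
  intro s hs
  refine ⟨fun hsub => ?_, fun hsub => ?_⟩
  · obtain ⟨x, hx, hx'⟩ := hmeet s hs
    exact (hA x).1 (hsub hx) hx'
  · have hB : ∀ x ∈ s, x ∈ T ∨ x ∈ X ∨ Tied G R x := by
      intro x hx
      have h1 := hsub hx
      rwa [Finset.mem_compl, hA x, not_not] at h1
    by_cases hT : ∃ t ∈ s, t ∈ T
    · obtain ⟨t, ht, htT⟩ := hT
      refine (hno s hs).2 ?_
      intro x hx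
      have hxs : x ∈ s := by exact_mod_cast hx
      by_cases hxt : x = t
      · rw [hxt]; exact htT
      have hadj : G.Adj t x := hs.1 ht hxs (fun h => hxt h.symm)
      have key : x ∉ R → x ∈ Nbr G R := fun h => ⟨h, t, hTR htT, hadj⟩
      rcases hB x hxs with h | h | h
      · exact h
      · exact absurd (key (hX x h).1) (hX x h).2
      · exact absurd (key h.1) h.2.1
    · push Not at hT
      refine LongHole.not_sub_tied hG hw hfree hR ?_ X hX ?_ s ⟨hs.1, hmax s hs⟩ ?_
      · intro t ht
        have htm : G.IsClique (t : Set V) ∧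
            ∀ u : Finset V, G.IsClique (u : Set V) → u.card ≤ t.card :=
          ⟨ht.1, fun u hu => by rw [ht.2]; exact hle u hu⟩
        have := (hno t htm).1
        rw [Set.not_subset] at this
        obtain ⟨x, hx, hx'⟩ := this
        exact ⟨x, by exact_mod_cast hx, hx'⟩
      · intro t ht1 ht2 ht3
        exact hdom t ht1 ht2 ht3
      · intro x hx
        rcases hB x hx with h | h | h
        · exact absurd h (hT x hx)
        · exact Or.inl h
        · exact Or.inr h

end Pool.Agent.LongHole.TiedQ
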